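import Mathlib

/-!
# A Littlewood-Offord bound modulo q
-/

set_option autoImplicit false

namespace Pool.Agent.Helper37HC

open Finset

section Chars

variable {q : ℕ} [NeZero q]

lemma norm_char (t : ZMod q) : ‖ZMod.stdAddChar (N := q) t‖ = 1 := by
  rw [ZMod.stdAddChar_apply]; exact Circle.norm_coe _

lemma char_sum {α : Type*} (s : Finset α) (f : α → ZMod q) :
    ZMod.stdAddChar (N := q) (∑ i ∈ s, f i) = ∏ i ∈ s, ZMod.stdAddChar (N := q) (f i) := by
  classical
  induction s using Finset.induction_on with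
  | empty => simp
  | insert a s ha ih => rw [Finset.sum_insert ha, Finset.prod_insert ha, AddChar.map_add_eq_mul, ih]

lemma norm_char_sub_one (t : ZMod q) :
    ‖ZMod.stdAddChar (N := q) t - 1‖ = 2 * Real.sin (Real.pi * t.val / q) := by
  have h1 : ZMod.stdAddChar (N := q) t = Complex.exp (Complex.I * ((2 * Real.pi * t.val / q : ℝ) : ℂ)) := by
    have h2 : ZMod.stdAddChar (N := q) (((t.val : ℤ) : ZMod q)) =
        Complex.exp (2 * Real.pi * Complex.I * (t.val : ℤ) / q) := ZMod.stdAddChar_coe _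
    have h3 : (((t.val : ℤ) : ZMod q)) = t := by simp
    rw [h3] at h2
    rw [h2]
    congr 1
    push_cast
    ring
  rw [h1, Complex.norm_exp_I_mul_ofReal_sub_one]
  have hq : (0 : ℝ) < q := by exact_mod_cast Nat.pos_of_ne_zero (NeZero.ne q)
  have h4 : 2 * Real.pi * (t.val : ℝ) / q / 2 = Real.pi * t.val / q := by ring
  rw [h4, Real.norm_eq_abs, abs_of_nonneg]
  have h5 : 0 ≤ Real.sin (Real.pi * t.val / q) := by
    apply Real.sin_nonneg_of_nonneg_of_le_pi
    · positivity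
    · rw [div_le_iff₀ hq]
      have h6 : (t.val : ℝ) ≤ q := by exact_mod_cast (ZMod.val_lt t).le
      have := Real.pi_pos
      nlinarith
  positivity

lemma near_one_dichotomy (t : ZMod q) (η : ℝ) (h : ‖ZMod.stdAddChar (N := q) t - 1‖ < η) :
    (t.val : ℝ) < η * q / 4 ∨ (q : ℝ) - t.val < η * q / 4 := by
  have hq : (0 : ℝ) < q := by exact_mod_cast Nat.pos_of_ne_zero (NeZero.ne q)
  have hlt : (t.val : ℝ) < q := by exact_mod_cast ZMod.val_lt t
  have hv : (0 : ℝ) ≤ t.val := by positivity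
  rw [norm_char_sub_one] at h
  have hpi := Real.pi_pos
  rcases le_or_gt ((t.val : ℝ) / q) (1 / 2) with h1 | h1
  · left
    have h2 := Real.mul_le_sin (x := Real.pi * t.val / q) (by positivity) (by
      rw [mul_div_assoc]; nlinarith)
    have h3 : 2 / Real.pi * (Real.pi * t.val / q) = 2 * (t.val / q) := by field_simp
    rw [h3] at h2
    have h4 : (t.val : ℝ) / q < η / 4 := by linarith
    rw [div_lt_iff₀ hq] at h4
    linarith
  · right
    have h2 := Real.mul_le_sin (x := Real.pi - Real.pi * t.val / q) (by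
      rw [sub_nonneg, div_le_iff₀ hq]; nlinarith) (by
      rw [mul_div_assoc]; nlinarith)
    rw [Real.sin_pi_sub] at h2
    have h3 : 2 / Real.pi * (Real.pi - Real.pi * t.val / q) = 2 * (1 - t.val / q) := by
      field_simp
    rw [h3] at h2
    have h4 : 1 - (t.val : ℝ) / q < η / 4 := by linarith
    have h5 : (1 - (t.val : ℝ) / q) * q < η / 4 * q := mul_lt_mul_of_pos_right h4 hq
    have h6 : (1 - (t.val : ℝ) / q) * q = q - t.val := by field_simp
    linarith

lemma card_near_one (η : ℝ) (hη : 0 ≤ η) :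
    ((univ.filter fun t : ZMod q => ‖ZMod.stdAddChar (N := q) t - 1‖ < η).card : ℝ) ≤
      η * q / 2 + 1 := by
  have hq : (0 : ℝ) < q := by exact_mod_cast Nat.pos_of_ne_zero (NeZero.ne q)
  set m := ⌈η * q / 4⌉₊ with hm
  have hm1 : (m : ℝ) < η * q / 4 + 1 := Nat.ceil_lt_add_one (by positivity)
  have key : (univ.filter fun t : ZMod q => ‖ZMod.stdAddChar (N := q) t - 1‖ < η).card ≤
      m + (m - 1) := by
    have h1 : ((univ.filter fun t : ZMod q => ‖ZMod.stdAddChar (N := q) t - 1‖ < η).image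
        ZMod.val) ⊆ range m ∪ ((Ico 1 m).image fun s => q - s) := by
      intro v hv
      obtain ⟨t, ht, rfl⟩ := mem_image.1 hv
      rw [mem_filter] at ht
      rw [mem_union]
      rcases near_one_dichotomy t η ht.2 with h | h
      · left
        rw [mem_range]
        exact_mod_cast lt_of_lt_of_le h (Nat.le_ceil _)
      · right
        have hlt := ZMod.val_lt t
        refine mem_image.2 ⟨q - t.val, ?_, by omega⟩
        rw [mem_Ico]
        refine ⟨by omega, ?_⟩
        have h2 : (((q - t.val : ℕ) : ℝ)) < m := by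
          rw [Nat.cast_sub hlt.le]
          exact lt_of_lt_of_le h (Nat.le_ceil _)
        exact_mod_cast h2
    have h2 : ((univ.filter fun t : ZMod q => ‖ZMod.stdAddChar (N := q) t - 1‖ < η).image
        ZMod.val).card = (univ.filter fun t : ZMod q => ‖ZMod.stdAddChar (N := q) t - 1‖ < η).card :=
      card_image_of_injective _ (ZMod.val_injective q)
    rw [← h2]
    refine (card_le_card h1).trans ((card_union_le _ _).trans ?_)
    rw [card_range]
    have h3 : ((Ico 1 m).image fun s => q - s).card ≤ m - 1 := by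
      refine card_image_le.trans ?_
      rw [Nat.card_Ico]
    omega
  rcases Nat.eq_zero_or_pos m with h0 | h0
  · rw [h0] at key
    have : ((univ.filter fun t : ZMod q => ‖ZMod.stdAddChar (N := q) t - 1‖ < η).card : ℝ) ≤ 0 := by
      exact_mod_cast key
    have h5 : 0 ≤ η * q / 2 := by positivity
    linarith
  · have h6 : ((m - 1 : ℕ) : ℝ) = (m : ℝ) - 1 := by
      rw [Nat.cast_sub h0]; simp
    have h7 : ((univ.filter fun t : ZMod q => ‖ZMod.stdAddChar (N := q) t - 1‖ < η).card : ℝ) ≤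
        (m : ℝ) + ((m - 1 : ℕ) : ℝ) := by exact_mod_cast key
    rw [h6] at h7
    linarith

/-- the same for multiples of a unit -/
lemma card_near_one_unit (u : ZMod q) (hu : IsUnit u) (η : ℝ) (hη : 0 ≤ η) :
    ((univ.filter fun t : ZMod q => ‖ZMod.stdAddChar (N := q) (t * u) - 1‖ < η).card : ℝ) ≤
      η * q / 2 + 1 := by
  refine le_trans ?_ (card_near_one (q := q) η hη)
  have h1 : (univ.filter fun t : ZMod q => ‖ZMod.stdAddChar (N := q) (t * u) - 1‖ < η).card ≤
      (univ.filter fun t : ZMod q => ‖ZMod.stdAddChar (N := q) t - 1‖ < η).card := by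
    refine card_le_card_of_injOn (fun t => t * u) ?_ ?_
    · intro t ht
      simp only [coe_filter, mem_univ, true_and, Set.mem_ofPred_eq] at ht ⊢
      exact ht
    · intro a _ b _ hab
      exact hu.mul_right_cancel hab
  exact_mod_cast h1

end Chars

section Count

variable {ι : Type*} [Fintype ι] [DecidableEq ι] {q : ℕ} [NeZero q]

/-- the exponential sum of one coordinate -/
noncomputable def Phi (q : ℕ) [NeZero q] (S : Finset ℤ) (h : ℤ → ℤ) (ξ : ZMod q) : ℂ :=
  ∑ x ∈ S, ZMod.stdAddChar (N := q) (ξ * (h x : ZMod q))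

lemma norm_Phi_le (S : Finset ℤ) (h : ℤ → ℤ) (ξ : ZMod q) : ‖Phi q S h ξ‖ ≤ S.card := by
  unfold Phi
  refine (norm_sum_le _ _).trans ?_
  simp

lemma fourier_count (A : ι → Finset ℤ) (h : ι → ℤ → ℤ) (c : ℤ) :
    (q : ℝ) * ((Fintype.piFinset A).filter fun x => (q : ℤ) ∣ (∑ i, h i (x i)) - c).card ≤
      ∑ ξ : ZMod q, ∏ i, ‖Phi q (A i) (h i) ξ‖ := by
  have h1 : ((q : ℂ)) * ((Fintype.piFinset A).filter fun x => (q : ℤ) ∣ (∑ i, h i (x i)) - c).card =
      ∑ ξ : ZMod q, ZMod.stdAddChar (N := q) (ξ * ((-c : ℤ) : ZMod q)) *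
        ∏ i, Phi q (A i) (h i) ξ := by
    have e1 : ∀ ξ : ZMod q, ZMod.stdAddChar (N := q) (ξ * ((-c : ℤ) : ZMod q)) *
        ∏ i, Phi q (A i) (h i) ξ = ∑ x ∈ Fintype.piFinset A,
          ZMod.stdAddChar (N := q) (ξ * (((∑ i, h i (x i)) - c : ℤ) : ZMod q)) := by
      intro ξ
      unfold Phi
      rw [Finset.prod_univ_sum, Finset.mul_sum]
      refine Finset.sum_congr rfl fun x _ => ?_
      rw [← char_sum, ← AddChar.map_add_eq_mul]
      congr 1
      push_cast
      rw [mul_sub, Finset.mul_sum]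
      ring
    simp only [e1]
    rw [Finset.sum_comm]
    have e2 : ∀ x : ι → ℤ, ∑ ξ : ZMod q,
        ZMod.stdAddChar (N := q) (ξ * (((∑ i, h i (x i)) - c : ℤ) : ZMod q)) =
        if (q : ℤ) ∣ (∑ i, h i (x i)) - c then (q : ℂ) else 0 := by
      intro x
      rw [AddChar.sum_mulShift _ (ZMod.isPrimitive_stdAddChar q)]
      simp only [ZMod.card]
      by_cases hd : (q : ℤ) ∣ (∑ i, h i (x i)) - c
      · rw [if_pos hd, if_pos ((ZMod.intCast_zmod_eq_zero_iff_dvd _ _).2 hd)]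
      · rw [if_neg hd, if_neg (fun h => hd ((ZMod.intCast_zmod_eq_zero_iff_dvd _ _).1 h))]
        simp
    simp only [e2]
    rw [← Finset.sum_filter, Finset.sum_const, nsmul_eq_mul]
    ring
  have h2 := congrArg norm h1
  rw [norm_mul] at h2
  simp only [Complex.norm_natCast] at h2
  rw [h2]
  refine (norm_sum_le _ _).trans (Finset.sum_le_sum fun ξ _ => ?_)
  rw [norm_mul, norm_char, one_mul, norm_prod]

/-- **Littlewood-Offord modulo `q`**, abstract form. -/
theorem lo (A : ι → Finset ℤ) (h : ι → ℤ → ℤ) (c : ℤ) (I : Finset ι) (n : ℕ) (hn : 1 ≤ n)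
    (hI : 2 * n ≤ I.card + 1) (dlt : ι → ℤ) (hu : ∀ i ∈ I, IsUnit ((dlt i : ℤ) : ZMod q))
    (η ρ : ℝ) (hη : 0 ≤ η) (hρ : 0 ≤ ρ) (hρ1 : ρ ≤ 1)
    (hb : ∀ i ∈ I, ∀ ξ : ZMod q, η ≤ ‖ZMod.stdAddChar (N := q) (ξ * (dlt i : ZMod q)) - 1‖ →
      ‖Phi q (A i) (h i) ξ‖ ≤ ρ * (A i).card) :
    (((Fintype.piFinset A).filter fun x => (q : ℤ) ∣ (∑ i, h i (x i)) - c).card : ℝ) ≤
      (η + 2 / q + ρ ^ n) * ∏ i, ((A i).card : ℝ) := by
  classical
  have hq : (0 : ℝ) < q := by exact_mod_cast Nat.pos_of_ne_zero (NeZero.ne q)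
  obtain ⟨P, hP⟩ : ∃ P : ℝ, P = ∏ i, ((A i).card : ℝ) := ⟨_, rfl⟩
  have hP0 : 0 ≤ P := by rw [hP]; exact Finset.prod_nonneg fun _ _ => Nat.cast_nonneg _
  rw [← hP]
  -- small coordinates
  set sm : ZMod q → Finset ι := fun ξ =>
    I.filter fun i => ‖ZMod.stdAddChar (N := q) (ξ * (dlt i : ZMod q)) - 1‖ < η with hsm
  set bad : Finset (ZMod q) := univ.filter fun ξ => I.card + 1 ≤ (sm ξ).card + n with hbad
  have hbadcard : (bad.card : ℝ) ≤ η * q + 2 := by
    have h1 : (bad.card : ℝ) * (I.card + 1 - n) ≤ ∑ ξ : ZMod q, ((sm ξ).card : ℝ) := by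
      calc (bad.card : ℝ) * (I.card + 1 - n) = ∑ ξ ∈ bad, ((I.card : ℝ) + 1 - n) := by
            rw [Finset.sum_const, nsmul_eq_mul]
        _ ≤ ∑ ξ ∈ bad, ((sm ξ).card : ℝ) := by
            refine Finset.sum_le_sum fun ξ hξ => ?_
            have h2 : I.card + 1 ≤ (sm ξ).card + n := (mem_filter.1 hξ).2
            have h3 : (I.card : ℝ) + 1 ≤ (sm ξ).card + n := by exact_mod_cast h2
            linarith
        _ ≤ ∑ ξ : ZMod q, ((sm ξ).card : ℝ) :=
            Finset.sum_le_sum_of_subset_of_nonneg (subset_univ _) fun _ _ _ => by positivity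
    have h2 : ∑ ξ : ZMod q, ((sm ξ).card : ℝ) ≤ I.card * (η * q / 2 + 1) := by
      have e1 : ∀ ξ : ZMod q, ((sm ξ).card : ℝ) = ∑ i ∈ I,
          if ‖ZMod.stdAddChar (N := q) (ξ * (dlt i : ZMod q)) - 1‖ < η then (1 : ℝ) else 0 := by
        intro ξ
        rw [Finset.sum_boole]
      simp only [e1]
      rw [Finset.sum_comm]
      calc ∑ i ∈ I, ∑ ξ : ZMod q,
            (if ‖ZMod.stdAddChar (N := q) (ξ * (dlt i : ZMod q)) - 1‖ < η then (1 : ℝ) else 0)
          ≤ ∑ i ∈ I, (η * q / 2 + 1) := by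
            refine Finset.sum_le_sum fun i hi => ?_
            have := card_near_one_unit ((dlt i : ℤ) : ZMod q) (hu i hi) η hη
            rw [Finset.sum_boole]
            exact this
        _ = I.card * (η * q / 2 + 1) := by rw [Finset.sum_const, nsmul_eq_mul]
    have h3 : (2 : ℝ) * n ≤ I.card + 1 := by exact_mod_cast hI
    have hn1 : (1 : ℝ) ≤ n := by exact_mod_cast hn
    have h4 : (bad.card : ℝ) * (I.card + 1 - n) ≤ I.card * (η * q / 2 + 1) := h1.trans h2
    have h5 : (I.card : ℝ) ≤ 2 * (I.card + 1 - n) := by linarith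
    have h6 : (0 : ℝ) < I.card + 1 - n := by linarith
    have h7 : (bad.card : ℝ) * (I.card + 1 - n) ≤ (η * q + 2) * (I.card + 1 - n) := by
      refine h4.trans ?_
      have h8 : 0 ≤ η * q / 2 + 1 := by positivity
      nlinarith [mul_le_mul_of_nonneg_right h5 h8]
    exact le_of_mul_le_mul_right h7 h6
  have hprod : ∀ ξ : ZMod q, ∏ i, ‖Phi q (A i) (h i) ξ‖ ≤ (if ξ ∈ bad then 1 else 0) * P + ρ ^ n * P := by
    intro ξ
    by_cases hξ : ξ ∈ bad
    · rw [if_pos hξ, one_mul]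
      have h1 : ∏ i, ‖Phi q (A i) (h i) ξ‖ ≤ P := by
        rw [hP]
        exact Finset.prod_le_prod (fun _ _ => norm_nonneg _) fun i _ => norm_Phi_le _ _ _
      have h2 : 0 ≤ ρ ^ n * P := mul_nonneg (pow_nonneg hρ n) hP0
      linarith
    · rw [if_neg hξ, zero_mul, zero_add]
      set G : Finset ι := I.filter fun i =>
        ¬ ‖ZMod.stdAddChar (N := q) (ξ * (dlt i : ZMod q)) - 1‖ < η with hG
      have hGcard : n ≤ G.card := by
        have h1 : (sm ξ).card + G.card = I.card := by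
          rw [hsm, hG]
          exact Finset.card_filter_add_card_filter_not _
        have h2 : ¬ (I.card + 1 ≤ (sm ξ).card + n) := fun h => hξ (mem_filter.2 ⟨mem_univ _, h⟩)
        omega
      have h1 : ∏ i, ‖Phi q (A i) (h i) ξ‖ ≤ ∏ i, ((if i ∈ G then ρ else 1) * ((A i).card : ℝ)) := by
        refine Finset.prod_le_prod (fun _ _ => norm_nonneg _) fun i _ => ?_
        by_cases hi : i ∈ G
        · rw [if_pos hi]
          rw [hG, mem_filter, not_lt] at hi
          exact hb i hi.1 ξ hi.2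
        · rw [if_neg hi, one_mul]
          exact norm_Phi_le _ _ _
      rw [Finset.prod_mul_distrib, ← hP] at h1
      have h2 : ∏ i : ι, (if i ∈ G then ρ else 1) = ρ ^ G.card := by
        rw [Finset.prod_ite_mem, Finset.univ_inter, Finset.prod_const]
      rw [h2] at h1
      refine h1.trans (mul_le_mul_of_nonneg_right ?_ hP0)
      exact pow_le_pow_of_le_one hρ hρ1 hGcard
  have hmain := fourier_count (q := q) A h c
  have h1 : ∑ ξ : ZMod q, ∏ i, ‖Phi q (A i) (h i) ξ‖ ≤ bad.card * P + q * (ρ ^ n * P) := by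
    refine (Finset.sum_le_sum fun ξ _ => hprod ξ).trans ?_
    rw [Finset.sum_add_distrib, Finset.sum_const, ← Finset.sum_mul, Finset.sum_boole, card_univ,
      ZMod.card, nsmul_eq_mul]
    have e5 : (univ.filter fun ξ : ZMod q => ξ ∈ bad) = bad := by
      ext ξ; simp only [mem_filter, mem_univ, true_and]
    rw [e5]
  have h2 := hmain.trans h1
  have h3 : (bad.card : ℝ) * P ≤ (η * q + 2) * P := mul_le_mul_of_nonneg_right hbadcard hP0
  have h4 : (q : ℝ) * ((Fintype.piFinset A).filter fun x => (q : ℤ) ∣ (∑ i, h i (x i)) - c).card ≤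
      q * ((η + 2 / q + ρ ^ n) * P) := by
    have e : (q : ℝ) * ((η + 2 / q + ρ ^ n) * P) = (η * q + 2) * P + q * (ρ ^ n * P) := by
      field_simp
    rw [e]
    linarith
  exact le_of_mul_le_mul_left h4 hq

end Count

lemma norm_add_one_le {w : ℂ} (hw : ‖w‖ = 1) : ‖w + 1‖ ≤ 2 - ‖w - 1‖ ^ 2 / 4 := by
  have h1 := parallelogram_law_with_norm ℝ w 1
  rw [hw, norm_one] at h1
  have h2 : ‖w - 1‖ ≤ 2 := by
    refine (norm_sub_le _ _).trans ?_
    rw [hw, norm_one]; norm_num
  have h3 : 0 ≤ ‖w - 1‖ := norm_nonneg _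
  have h4 : 0 ≤ ‖w + 1‖ := norm_nonneg _
  have h5 : 0 ≤ 2 - ‖w - 1‖ ^ 2 / 4 := by nlinarith
  nlinarith [sq_nonneg (‖w - 1‖ ^ 2)]

section Bounds

variable {q : ℕ} [NeZero q]

/-- small sets -/
lemma Phi_small (S : Finset ℤ) (h : ℤ → ℤ) (y z : ℤ) (hy : y ∈ S) (hz : z ∈ S) (hyz : y ≠ z)
    (b : ℕ) (hb : S.card ≤ b) (η : ℝ) (hη : 0 ≤ η) (ξ : ZMod q)
    (hξ : η ≤ ‖ZMod.stdAddChar (N := q) (ξ * ((h y - h z : ℤ) : ZMod q)) - 1‖) :
    ‖Phi q S h ξ‖ ≤ (1 - η ^ 2 / (4 * b)) * S.card := by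
  have hS0 : 0 < S.card := card_pos.2 ⟨y, hy⟩
  have hb0 : (0 : ℝ) < b := by exact_mod_cast lt_of_lt_of_le hS0 hb
  set w := ZMod.stdAddChar (N := q) (ξ * ((h y - h z : ℤ) : ZMod q)) with hw
  have e1 : ZMod.stdAddChar (N := q) (ξ * (h y : ZMod q)) =
      w * ZMod.stdAddChar (N := q) (ξ * (h z : ZMod q)) := by
    rw [hw, ← AddChar.map_add_eq_mul]
    congr 1
    push_cast
    ring
  have hsplit : Phi q S h ξ = (∑ x ∈ (S.erase y).erase z, ZMod.stdAddChar (N := q) (ξ * (h x : ZMod q))) +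
      (w + 1) * ZMod.stdAddChar (N := q) (ξ * (h z : ZMod q)) := by
    unfold Phi
    rw [← Finset.sum_erase_add S _ hy, ← Finset.sum_erase_add (S.erase y) _
      (mem_erase.2 ⟨hyz.symm, hz⟩), e1]
    ring
  have hcard : (((S.erase y).erase z).card : ℝ) = S.card - 2 := by
    rw [card_erase_of_mem (mem_erase.2 ⟨hyz.symm, hz⟩), card_erase_of_mem hy]
    have h2 : 2 ≤ S.card := by
      have : ({y, z} : Finset ℤ) ⊆ S := by
        intro x hx
        rw [mem_insert, mem_singleton] at hx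
        rcases hx with rfl | rfl <;> assumption
      calc 2 = ({y, z} : Finset ℤ).card := (card_pair hyz).symm
        _ ≤ S.card := card_le_card this
    rw [show S.card - 1 - 1 = S.card - 2 by omega, Nat.cast_sub h2]
    simp
  have h1 : ‖Phi q S h ξ‖ ≤ (S.card - 2) + (2 - ‖w - 1‖ ^ 2 / 4) := by
    rw [hsplit]
    refine (norm_add_le _ _).trans (add_le_add ?_ ?_)
    · rw [← hcard]
      refine (norm_sum_le _ _).trans ?_
      simp
    · rw [norm_mul, norm_char, mul_one]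
      exact norm_add_one_le (norm_char _)
  have h2 : η ^ 2 ≤ ‖w - 1‖ ^ 2 := by gcongr
  have h3 : η ^ 2 / (4 * b) * S.card ≤ η ^ 2 / 4 := by
    have h4 : (S.card : ℝ) ≤ b := by exact_mod_cast hb
    rw [div_mul_eq_mul_div, div_le_div_iff₀ (by positivity) (by norm_num)]
    have := mul_le_mul_of_nonneg_left h4 (sq_nonneg η)
    nlinarith
  nlinarith

/-- long arithmetic progressions -/
lemma Phi_AP (a u h0 dl : ℤ) (L : ℕ) (hu : u ≠ 0) (h : ℤ → ℤ)
    (hh : ∀ t : ℕ, t < L → h (a + t * u) = h0 + t * dl) (η : ℝ) (hη : 0 < η) (ξ : ZMod q)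
    (hξ : η ≤ ‖ZMod.stdAddChar (N := q) (ξ * (dl : ZMod q)) - 1‖) :
    ‖Phi q ((range L).image fun t : ℕ => a + t * u) h ξ‖ ≤ 2 / η := by
  have hinj : Set.InjOn (fun t : ℕ => a + (t : ℤ) * u) (range L : Finset ℕ) := by
    intro s _ t _ hst
    simp only [add_right_inj] at hst
    have := mul_right_cancel₀ hu hst
    exact_mod_cast this
  unfold Phi
  rw [Finset.sum_image hinj]
  set w := ZMod.stdAddChar (N := q) (ξ * (dl : ZMod q)) with hw
  have e1 : ∑ t ∈ range L, ZMod.stdAddChar (N := q) (ξ * ((h (a + (t : ℤ) * u) : ℤ) : ZMod q)) =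
      ZMod.stdAddChar (N := q) (ξ * (h0 : ZMod q)) * ∑ t ∈ range L, w ^ t := by
    rw [Finset.mul_sum]
    refine Finset.sum_congr rfl fun t ht => ?_
    rw [hh t (mem_range.1 ht), hw, ← AddChar.map_nsmul_eq_pow, ← AddChar.map_add_eq_mul]
    congr 1
    push_cast
    rw [nsmul_eq_mul]
    ring
  have hw1 : w ≠ 1 := by
    intro h1
    rw [h1, sub_self, norm_zero] at hξ
    linarith
  rw [e1, norm_mul, norm_char, one_mul, geom_sum_eq hw1, norm_div]
  have h2 : ‖w ^ L - 1‖ ≤ 2 := by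
    refine (norm_sub_le _ _).trans ?_
    rw [norm_pow, norm_char, one_pow, norm_one]; norm_num
  have h3 : 0 < ‖w - 1‖ := lt_of_lt_of_le hη hξ
  exact div_le_div₀ (by norm_num) h2 hη hξ

end Bounds

end Pool.Agent.Helper37HC
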