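import Mathlib

/-!
# Fixing coordinates at the bad primes
-/

set_option autoImplicit false

namespace Pool.Agent.Helper37HC

open Finset

/-- all the differences of elements of `S` are divisible by `n` -/
def Dv (n : ℕ) (S : Finset ℤ) : Prop := ∀ x ∈ S, ∀ y ∈ S, (n : ℤ) ∣ x - y

lemma Dv.mono {m n : ℕ} {S : Finset ℤ} (h : Dv n S) (hmn : m ∣ n) : Dv m S :=
  fun x hx y hy => (Int.natCast_dvd_natCast.2 hmn).trans (h x hx y hy)

lemma Dv_one (S : Finset ℤ) : Dv 1 S := fun _ _ _ _ => by simp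

variable {k : ℕ}

/-- the family with the coordinates outside of `I` fixed -/
def Bf (A : Fin k → Finset ℤ) (I : Finset (Fin k)) (a : Fin k → ℤ) (i : Fin k) : Finset ℤ :=
  if i ∈ I then A i else {a i}

lemma mem_Bf {A : Fin k → Finset ℤ} {I : Finset (Fin k)} {a x : Fin k → ℤ} :
    x ∈ Fintype.piFinset (Bf A I a) ↔ (∀ i ∈ I, x i ∈ A i) ∧ ∀ i, i ∉ I → x i = a i := by
  rw [Fintype.mem_piFinset]
  constructor
  · intro h
    refine ⟨fun i hi => ?_, fun i hi => ?_⟩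
    · have := h i
      rw [Bf, if_pos hi] at this
      exact this
    · have := h i
      rw [Bf, if_neg hi, mem_singleton] at this
      exact this
  · rintro ⟨h1, h2⟩ i
    by_cases hi : i ∈ I
    · rw [Bf, if_pos hi]; exact h1 i hi
    · rw [Bf, if_neg hi, mem_singleton]; exact h2 i hi

/-- the sums are not divisible by a power of `p` modulo which they are all congruent -/
def Safe (A : Fin k → Finset ℤ) (I : Finset (Fin k)) (a : Fin k → ℤ) (p : ℕ) : Prop :=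
  ∃ e : ℕ, (∀ i ∈ I, Dv (p ^ e) (A i)) ∧
    ∀ x ∈ Fintype.piFinset (Bf A I a), ¬ ((p ^ e : ℕ) : ℤ) ∣ ∑ i, x i

/-- many small coordinates or a large one of minimal valuation -/
def Spr (A : Fin k → Finset ℤ) (I : Finset (Fin k)) (a : Fin k → ℤ) (M Λ p : ℕ) : Prop :=
  ∃ e : ℕ, (∀ i ∈ I, Dv (p ^ e) (A i)) ∧
    (∀ x ∈ Fintype.piFinset (Bf A I a), ((p ^ e : ℕ) : ℤ) ∣ ∑ i, x i) ∧
    ∃ L ⊆ I, (∀ i ∈ L, ¬ Dv (p ^ (e + 1)) (A i)) ∧
      (M ≤ L.card ∨ ∃ i ∈ L, Λ < (A i).card)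

/-- the invariant of the process -/
structure St (A : Fin k → Finset ℤ) (g M Λ : ℕ) (I : Finset (Fin k)) (a : Fin k → ℤ)
    (T : Finset ℕ) : Prop where
  mem : ∀ i, a i ∈ A i
  small : ∀ i, i ∉ I → (A i).card ≤ Λ
  low : T.card ≤ (univ \ I).card
  up : (univ \ I).card ≤ M * T.card
  prime : ∀ p ∈ T, p.Prime
  pop : ∀ p ∈ T, ∀ i ∈ I, Dv (p * g) (A i)
  safe : ∀ p ∈ T, Safe A I a p

lemma Safe.mono {A : Fin k → Finset ℤ} {I J : Finset (Fin k)} {a c : Fin k → ℤ} {p : ℕ}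
    (h : Safe A I a p) (hJ : J ⊆ I) (hc : ∀ i, c i ∈ A i) (hca : ∀ i, i ∉ I → c i = a i) :
    Safe A J c p := by
  obtain ⟨e, h1, h2⟩ := h
  refine ⟨e, fun i hi => h1 i (hJ hi), fun x hx => h2 x ?_⟩
  rw [mem_Bf] at hx ⊢
  refine ⟨fun i hi => ?_, fun i hi => ?_⟩
  · by_cases hiJ : i ∈ J
    · exact hx.1 i hiJ
    · rw [hx.2 i hiJ]; exact hc i
  · rw [hx.2 i fun h => hi (hJ h), hca i hi]

lemma sum_sub_dvd {A : Fin k → Finset ℤ} {I : Finset (Fin k)} {a x y : Fin k → ℤ} {n : ℕ}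
    (hI : ∀ i ∈ I, Dv n (A i)) (hx : x ∈ Fintype.piFinset (Bf A I a))
    (hy : y ∈ Fintype.piFinset (Bf A I a)) : (n : ℤ) ∣ (∑ i, x i) - ∑ i, y i := by
  rw [mem_Bf] at hx hy
  rw [← Finset.sum_sub_distrib]
  refine Finset.dvd_sum fun i _ => ?_
  by_cases hi : i ∈ I
  · exact hI i hi _ (hx.1 i hi) _ (hy.1 i hi)
  · rw [hx.2 i hi, hy.2 i hi, sub_self]; exact dvd_zero _

lemma exists_level {A : Fin k → Finset ℤ} {I : Finset (Fin k)} (hI : I.Nonempty)
    (h2 : ∀ i, 2 ≤ (A i).card) {p : ℕ} (hp : p.Prime) :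
    ∃ e : ℕ, (∀ i ∈ I, Dv (p ^ e) (A i)) ∧ ∃ i ∈ I, ¬ Dv (p ^ (e + 1)) (A i) := by
  classical
  have hex : ∃ e : ℕ, ¬ ∀ i ∈ I, Dv (p ^ e) (A i) := by
    obtain ⟨i, hi⟩ := hI
    obtain ⟨x, hx, y, hy, hxy⟩ := one_lt_card.1 (lt_of_lt_of_le one_lt_two (h2 i))
    refine ⟨(x - y).natAbs, fun h => ?_⟩
    have h3 := h i hi x hx y hy
    have h4 : (p ^ (x - y).natAbs) ∣ (x - y).natAbs := by
      rw [← Int.natCast_dvd]; exact h3
    have h5 : (x - y).natAbs ≠ 0 := by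
      rw [Int.natAbs_ne_zero]; exact sub_ne_zero.2 hxy
    have h6 := Nat.le_of_dvd (Nat.pos_of_ne_zero h5) h4
    have h7 : (x - y).natAbs < p ^ (x - y).natAbs := Nat.lt_pow_self hp.one_lt
    omega
  have h0 : Nat.find hex ≠ 0 := by
    intro h0
    have h1 := Nat.find_spec hex
    rw [h0, pow_zero] at h1
    exact h1 fun i _ => Dv_one _
  obtain ⟨e, he⟩ := Nat.exists_eq_succ_of_ne_zero h0
  refine ⟨e, ?_, ?_⟩
  · have := Nat.find_min hex (m := e) (by omega)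
    rwa [not_not] at this
  · have h1 := Nat.find_spec hex
    rw [he] at h1
    push Not at h1
    exact h1

lemma pg_dvd {g p e : ℕ} (hg : 0 < g) (hp : p.Prime) {A : Fin k → Finset ℤ} {I : Finset (Fin k)}
    (hA : ∀ i, Dv g (A i)) (h : ∃ i ∈ I, ¬ Dv (p ^ (e + 1)) (A i)) {S : Finset ℤ} (hgS : Dv g S)
    (hS : Dv (p ^ (e + 1)) S) : Dv (p * g) S := by
  obtain ⟨v, g', hg', rfl⟩ := Nat.exists_eq_pow_mul_and_not_dvd hg.ne' p hp.ne_one
  have hve : v ≤ e := by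
    by_contra hcon
    obtain ⟨i, -, hi⟩ := h
    apply hi
    refine (hA i).mono ?_
    exact (pow_dvd_pow p (by omega)).trans (dvd_mul_right _ _)
  have hcop : Nat.Coprime (p ^ (v + 1)) g' :=
    Nat.Coprime.pow_left _ ((Nat.Prime.coprime_iff_not_dvd hp).2 hg')
  intro x hx y hy
  have h1 : ((p ^ (v + 1) : ℕ) : ℤ) ∣ x - y :=
    (hS.mono (pow_dvd_pow p (by omega))) x hx y hy
  have h2 : ((g' : ℕ) : ℤ) ∣ x - y := (hgS.mono (dvd_mul_left _ _)) x hx y hy
  have h3 : IsCoprime ((p ^ (v + 1) : ℕ) : ℤ) ((g' : ℕ) : ℤ) := Nat.isCoprime_iff_coprime.2 hcop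
  have h4 := h3.mul_dvd h1 h2
  have e5 : p * (p ^ v * g') = p ^ (v + 1) * g' := by ring
  rw [e5]
  push_cast at h4 ⊢
  exact h4

/-- one step of the process -/
theorem step {A : Fin k → Finset ℤ} {g M Λ : ℕ} (hg : 0 < g) (hA : ∀ i, Dv g (A i))
    (h2 : ∀ i, 2 ≤ (A i).card) {I : Finset (Fin k)} {a : Fin k → ℤ} {T : Finset ℕ}
    (h : St A g M Λ I a T) (hI : I.Nonempty) {p : ℕ} (hp : p.Prime) (h3 : ¬ Safe A I a p)
    (h4 : ¬ Spr A I a M Λ p) : ∃ J c, St A g M Λ J c (insert p T) ∧ p ∉ T := by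
  classical
  have hpT : p ∉ T := fun hpT => h3 (h.safe p hpT)
  obtain ⟨e, he, hne⟩ := exists_level hI h2 hp
  have hall : ∀ x ∈ Fintype.piFinset (Bf A I a), ((p ^ e : ℕ) : ℤ) ∣ ∑ i, x i := by
    by_contra hcon
    push Not at hcon
    obtain ⟨x, hx, hxd⟩ := hcon
    refine h3 ⟨e, he, fun y hy hyd => hxd ?_⟩
    have := sum_sub_dvd he hx hy
    have h5 := dvd_add this hyd
    rwa [sub_add_cancel] at h5
  set L := I.filter fun i => ¬ Dv (p ^ (e + 1)) (A i) with hL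
  have hLI : L ⊆ I := filter_subset _ _
  have hLd : ∀ i ∈ L, ¬ Dv (p ^ (e + 1)) (A i) := fun i hi => (mem_filter.1 hi).2
  have hLM : L.card < M := by
    by_contra hcon
    exact h4 ⟨e, he, hall, L, hLI, hLd, Or.inl (not_lt.1 hcon)⟩
  have hLs : ∀ i ∈ L, (A i).card ≤ Λ := by
    intro i hi
    by_contra hcon
    exact h4 ⟨e, he, hall, L, hLI, hLd, Or.inr ⟨i, hi, not_le.1 hcon⟩⟩
  obtain ⟨i₀, hi₀I, hi₀⟩ := hne
  have hi₀L : i₀ ∈ L := mem_filter.2 ⟨hi₀I, hi₀⟩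
  have hyz : ∃ y ∈ A i₀, ∃ z ∈ A i₀, ¬ ((p ^ (e + 1) : ℕ) : ℤ) ∣ y - z := by
    by_contra hcon
    push Not at hcon
    exact hi₀ fun y hy z hz => hcon y hy z hz
  obtain ⟨y, hy, z, hz, hyzd⟩ := hyz
  -- choose the new value
  have hch : ∃ w ∈ A i₀, ¬ ((p ^ (e + 1) : ℕ) : ℤ) ∣ ∑ i, Function.update a i₀ w i := by
    by_contra hcon
    push Not at hcon
    have h5 := hcon y hy
    have h6 := hcon z hz
    rw [Finset.sum_update_of_mem (mem_univ _)] at h5 h6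
    have h7 := dvd_sub h5 h6
    rw [add_sub_add_right_eq_sub] at h7
    exact hyzd h7
  obtain ⟨w, hw, hwd⟩ := hch
  set c := Function.update a i₀ w with hc
  have hcm : ∀ i, c i ∈ A i := by
    intro i
    by_cases hi : i = i₀
    · subst hi; rw [hc, Function.update_self]; exact hw
    · rw [hc, Function.update_of_ne hi]; exact h.mem i
  have hca : ∀ i, i ∉ I → c i = a i := by
    intro i hi
    rw [hc, Function.update_of_ne]
    rintro rfl
    exact hi hi₀I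
  have hJI : I \ L ⊆ I := sdiff_subset
  have hJd : ∀ i ∈ I \ L, Dv (p ^ (e + 1)) (A i) := by
    intro i hi
    rw [mem_sdiff] at hi
    by_contra hcon
    exact hi.2 (mem_filter.2 ⟨hi.1, hcon⟩)
  have hcard : (univ \ (I \ L)).card = (univ \ I).card + L.card := by
    have h5 : (univ \ (I \ L) : Finset (Fin k)) = (univ \ I) ∪ L := by
      ext i
      simp only [mem_sdiff, mem_univ, true_and, mem_union, not_and, not_not]
      constructor
      · intro h6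
        by_cases hiI : i ∈ I
        · exact Or.inr (h6 hiI)
        · exact Or.inl hiI
      · rintro (h6 | h6) h7
        · exact absurd h7 h6
        · exact h6
    rw [h5, card_union_of_disjoint]
    rw [disjoint_left]
    intro i hi hiL
    rw [mem_sdiff] at hi
    exact hi.2 (hLI hiL)
  have hLpos : 0 < L.card := card_pos.2 ⟨i₀, hi₀L⟩
  refine ⟨I \ L, c, ?_, hpT⟩
  constructor
  · exact hcm
  · intro i hi
    by_cases hiI : i ∈ I
    · apply hLs
      by_contra hiL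
      exact hi (mem_sdiff.2 ⟨hiI, hiL⟩)
    · exact h.small i hiI
  · rw [card_insert_of_notMem hpT, hcard]
    have := h.low
    omega
  · rw [card_insert_of_notMem hpT, hcard]
    have := h.up
    rw [mul_add, mul_one]
    omega
  · intro q hq
    rcases mem_insert.1 hq with rfl | hq
    · exact hp
    · exact h.prime q hq
  · intro q hq i hi
    rcases mem_insert.1 hq with rfl | hq
    · exact pg_dvd hg hp hA ⟨i₀, hi₀I, hi₀⟩ (hA i) (hJd i hi)
    · exact h.pop q hq i (hJI hi)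
  · intro q hq
    rcases mem_insert.1 hq with rfl | hq
    · refine ⟨e + 1, hJd, fun x hx hxd => hwd ?_⟩
      have h5 : c ∈ Fintype.piFinset (Bf A (I \ L) c) :=
        mem_Bf.2 ⟨fun i _ => hcm i, fun i _ => rfl⟩
      have h6 := sum_sub_dvd hJd h5 hx
      have h7 := dvd_add h6 hxd
      rwa [sub_add_cancel] at h7
    · exact (h.safe q hq).mono hJI hcm hca

/-- the process stops, or it continues -/
theorem proc {A : Fin k → Finset ℤ} {g M Λ : ℕ} (hg : 0 < g) (hA : ∀ i, Dv g (A i))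
    (h2 : ∀ i, 2 ≤ (A i).card) (s : ℕ) :
    (∃ I a T, St A g M Λ I a T ∧ T.card < s ∧
      (I = ∅ ∨ ∀ p : ℕ, p.Prime → Safe A I a p ∨ Spr A I a M Λ p)) ∨
    ∃ I a T, St A g M Λ I a T ∧ T.card = s := by
  classical
  induction s with
  | zero =>
    right
    have hne : ∀ i, (A i).Nonempty := fun i => card_pos.1 (by have := h2 i; omega)
    choose a ha using hne
    refine ⟨univ, a, ∅, ⟨ha, ?_, ?_, ?_, ?_, ?_, ?_⟩, rfl⟩ <;> simp
  | succ s ih =>
    rcases ih with ⟨I, a, T, h, hT, hd⟩ | ⟨I, a, T, h, hT⟩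
    · exact Or.inl ⟨I, a, T, h, by omega, hd⟩
    · by_cases hd : I = ∅ ∨ ∀ p : ℕ, p.Prime → Safe A I a p ∨ Spr A I a M Λ p
      · exact Or.inl ⟨I, a, T, h, by omega, hd⟩
      · push Not at hd
        obtain ⟨hI, p, hp, h3, h4⟩ := hd
        obtain ⟨J, c, hJ, hpT⟩ := step hg hA h2 h (nonempty_iff_ne_empty.2 (by
          simpa [nonempty_iff_ne_empty] using hI)) hp h3 h4
        refine Or.inr ⟨J, c, insert p T, hJ, ?_⟩
        rw [card_insert_of_notMem hpT, hT]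

end Pool.Agent.Helper37HC
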