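import Mathlib
import Pool.Agent.Helper37HC.LO
import Pool.Agent.Helper37HC.Proc

/-!
# Few sums are divisible by a large power of a prime with many coordinates of minimal valuation
-/

set_option autoImplicit false

namespace Pool.Agent.Helper37HC

open Finset

/-- `S` is an arithmetic progression -/
def IsAP (S : Finset ℤ) : Prop :=
  ∃ a u : ℤ, ∃ L : ℕ, S = (range L).image fun t : ℕ => a + (t : ℤ) * u

lemma unit_of_not_dvd {p e j : ℕ} (hp : p.Prime) {v : ℤ} (h1 : ((p ^ e : ℕ) : ℤ) ∣ v)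
    (h2 : ¬ ((p ^ (e + 1) : ℕ) : ℤ) ∣ v) : IsUnit (((v / ((p ^ e : ℕ) : ℤ) : ℤ)) : ZMod (p ^ j)) := by
  rw [ZMod.coe_int_isUnit_iff_isCoprime]
  obtain ⟨w, rfl⟩ := h1
  have hpe : ((p ^ e : ℕ) : ℤ) ≠ 0 := by
    have := hp.pos
    positivity
  rw [Int.mul_ediv_cancel_left _ hpe]
  have h3 : ¬ (p : ℤ) ∣ w := by
    rintro ⟨t, rfl⟩
    apply h2
    refine ⟨t, ?_⟩
    push_cast
    ring
  have h4 : IsCoprime (p : ℤ) w :=
    (Nat.prime_iff_prime_int.1 hp).irreducible.coprime_iff_not_dvd.2 h3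
  push_cast
  exact h4.pow_left

lemma dvd_iff {k : ℕ} {A : Fin k → Finset ℤ} {I : Finset (Fin k)} {a : Fin k → ℤ} {p e j : ℕ}
    (hp : p.Prime) (ha : ∀ i, a i ∈ A i) (h1 : ∀ i ∈ I, Dv (p ^ e) (A i))
    (h2 : ∀ x ∈ Fintype.piFinset (Bf A I a), ((p ^ e : ℕ) : ℤ) ∣ ∑ i, x i)
    {x : Fin k → ℤ} (hx : x ∈ Fintype.piFinset (Bf A I a)) :
    ((p ^ (e + j) : ℕ) : ℤ) ∣ ∑ i, x i ↔
      ((p ^ j : ℕ) : ℤ) ∣ (∑ i, (x i - a i) / ((p ^ e : ℕ) : ℤ)) - -((∑ i, a i) / ((p ^ e : ℕ) : ℤ)) := by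
  have hpe : ((p ^ e : ℕ) : ℤ) ≠ 0 := by
    have := hp.pos
    positivity
  have haB : a ∈ Fintype.piFinset (Bf A I a) := mem_Bf.2 ⟨fun i _ => ha i, fun i _ => rfl⟩
  have h3 : ∀ i, ((p ^ e : ℕ) : ℤ) * ((x i - a i) / ((p ^ e : ℕ) : ℤ)) = x i - a i := by
    intro i
    apply Int.mul_ediv_cancel'
    rw [mem_Bf] at hx
    by_cases hi : i ∈ I
    · exact h1 i hi _ (hx.1 i hi) _ (ha i)
    · rw [hx.2 i hi, sub_self]; exact dvd_zero _
  have h4 : ((p ^ e : ℕ) : ℤ) * ((∑ i, a i) / ((p ^ e : ℕ) : ℤ)) = ∑ i, a i :=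
    Int.mul_ediv_cancel' (h2 a haB)
  have h5 : ∑ i, x i = ((p ^ e : ℕ) : ℤ) *
      ((∑ i, (x i - a i) / ((p ^ e : ℕ) : ℤ)) - -((∑ i, a i) / ((p ^ e : ℕ) : ℤ))) := by
    rw [sub_neg_eq_add, mul_add, h4, Finset.mul_sum]
    simp only [h3]
    rw [Finset.sum_sub_distrib]
    ring
  rw [h5, pow_add, Nat.cast_mul]
  exact mul_dvd_mul_iff_left hpe

theorem spr_count (δ : ℝ) (hδ : 0 < δ) (b : ℕ) : ∃ m Λ M : ℕ, 2 ≤ m ∧ b ≤ Λ ∧ 1 ≤ M ∧
    ∀ (k : ℕ) (A : Fin k → Finset ℤ) (I : Finset (Fin k)) (a : Fin k → ℤ) (p e j : ℕ),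
      (∀ i, 2 ≤ (A i).card) → (∀ i, (A i).card ≤ b ∨ IsAP (A i)) → p.Prime → (∀ i, a i ∈ A i) →
      (∀ i ∈ I, Dv (p ^ e) (A i)) →
      (∀ x ∈ Fintype.piFinset (Bf A I a), ((p ^ e : ℕ) : ℤ) ∣ ∑ i, x i) →
      (∃ L ⊆ I, (∀ i ∈ L, ¬ Dv (p ^ (e + 1)) (A i)) ∧ (M ≤ L.card ∨ ∃ i ∈ L, Λ < (A i).card)) →
      m ≤ p ^ j →
      (((Fintype.piFinset (Bf A I a)).filter fun x => ((p ^ (e + j) : ℕ) : ℤ) ∣ ∑ i, x i).card : ℝ) ≤
        δ * ∏ i, ((Bf A I a i).card : ℝ) := by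
  classical
  wlog hδ1 : δ ≤ 1 generalizing δ
  · obtain ⟨m, Λ, M, h1, h2, h3, h4⟩ := this 1 one_pos le_rfl
    refine ⟨m, Λ, M, h1, h2, h3, fun k A I a p e j g1 g2 g3 g4 g5 g6 g7 g8 => ?_⟩
    refine (h4 k A I a p e j g1 g2 g3 g4 g5 g6 g7 g8).trans ?_
    exact mul_le_mul_of_nonneg_right (not_le.1 hδ1).le
      (Finset.prod_nonneg fun _ _ => Nat.cast_nonneg _)
  obtain ⟨η, hη⟩ : ∃ η : ℝ, η = δ / 3 := ⟨_, rfl⟩
  have hη0 : 0 < η := by rw [hη]; positivity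
  have hη1 : η ≤ 1 := by rw [hη]; linarith
  set m := max 2 ⌈6 / δ⌉₊ with hm
  set Λ := max (max b 1) ⌈2 / (η * (δ / 3))⌉₊ with hΛ
  have hΛ1 : 1 ≤ Λ := (le_max_right b 1).trans (le_max_left _ _)
  have hΛr : (1 : ℝ) ≤ Λ := by exact_mod_cast hΛ1
  obtain ⟨ρ, hρ⟩ : ∃ ρ : ℝ, ρ = 1 - η ^ 2 / (4 * Λ) := ⟨_, rfl⟩
  have hρ1 : ρ < 1 := by
    rw [hρ]
    have : 0 < η ^ 2 / (4 * Λ) := by positivity
    linarith
  have hρ0 : 0 ≤ ρ := by
    rw [hρ, sub_nonneg, div_le_one (by positivity)]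
    nlinarith
  obtain ⟨n, hn⟩ := exists_pow_lt_of_lt_one (show (0 : ℝ) < δ / 3 by positivity) hρ1
  refine ⟨m, Λ, 2 * (n + 1), le_max_left _ _, (le_max_left b 1).trans (le_max_left _ _), by omega,
    ?_⟩
  intro k A I a p e j hA2 hAb hp ha h1 h2 ⟨L, hLI, hL, hcase⟩ hmj
  have hpe : ((p ^ e : ℕ) : ℤ) ≠ 0 := by
    have := hp.pos
    positivity
  have : NeZero (p ^ j) := ⟨(pow_pos hp.pos j).ne'⟩
  have hfil : ((Fintype.piFinset (Bf A I a)).filter fun x => ((p ^ (e + j) : ℕ) : ℤ) ∣ ∑ i, x i) =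
      (Fintype.piFinset (Bf A I a)).filter fun x => ((p ^ j : ℕ) : ℤ) ∣
        (∑ i, (fun (i : Fin k) (x : ℤ) => (x - a i) / ((p ^ e : ℕ) : ℤ)) i (x i)) -
          -((∑ i, a i) / ((p ^ e : ℕ) : ℤ)) :=
    filter_congr fun x hx => dvd_iff hp ha h1 h2 hx
  rw [hfil]
  have hq : (m : ℝ) ≤ ((p ^ j : ℕ) : ℝ) := by exact_mod_cast hmj
  have hq2 : 2 / ((p ^ j : ℕ) : ℝ) ≤ δ / 3 := by
    have h3 : 6 / δ ≤ m := (Nat.le_ceil _).trans (by exact_mod_cast le_max_right _ _)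
    have h4 : 6 / δ ≤ ((p ^ j : ℕ) : ℝ) := h3.trans hq
    rw [div_le_iff₀ hδ] at h4
    have h5 : (0 : ℝ) < ((p ^ j : ℕ) : ℝ) := by
      have : 0 < p ^ j := pow_pos hp.pos j
      exact_mod_cast this
    rw [div_le_div_iff₀ h5 (by norm_num)]
    linarith
  have hBI : ∀ i ∈ L, Bf A I a i = A i := fun i hi => by rw [Bf, if_pos (hLI hi)]
  by_cases hbig : ∃ i ∈ L, Λ < (A i).card
  · obtain ⟨i₀, hi₀, hbig⟩ := hbig
    have hAP : IsAP (A i₀) := by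
      rcases hAb i₀ with h | h
      · exfalso
        have : b ≤ Λ := (le_max_left b 1).trans (le_max_left _ _)
        omega
      · exact h
    obtain ⟨a0, u, l, hl⟩ := hAP
    have hcard2 := hA2 i₀
    have hl2 : 2 ≤ l := by
      have h3 : (A i₀).card ≤ l := by
        rw [hl]
        exact card_image_le.trans (by rw [card_range])
      omega
    have hm0 : a0 ∈ A i₀ := by
      rw [hl]; exact mem_image.2 ⟨0, mem_range.2 (by omega), by simp⟩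
    have hm1 : a0 + u ∈ A i₀ := by
      rw [hl]; exact mem_image.2 ⟨1, mem_range.2 (by omega), by simp⟩
    have hu0 : u ≠ 0 := by
      rintro rfl
      have h3 : (A i₀).card ≤ 1 := by
        rw [hl]
        refine card_le_one.2 fun x hx y hy => ?_
        obtain ⟨s, -, rfl⟩ := mem_image.1 hx
        obtain ⟨t, -, rfl⟩ := mem_image.1 hy
        simp
      omega
    have hdu : ((p ^ e : ℕ) : ℤ) ∣ u := by
      have := h1 i₀ (hLI hi₀) _ hm1 _ hm0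
      rwa [add_sub_cancel_left] at this
    have hndu : ¬ ((p ^ (e + 1) : ℕ) : ℤ) ∣ u := by
      intro h3
      apply hL i₀ hi₀
      intro x hx y hy
      rw [hl] at hx hy
      obtain ⟨s, -, rfl⟩ := mem_image.1 hx
      obtain ⟨t, -, rfl⟩ := mem_image.1 hy
      have e3 : a0 + (s : ℤ) * u - (a0 + (t : ℤ) * u) = ((s : ℤ) - t) * u := by ring
      rw [e3]
      exact Dvd.dvd.mul_left h3 _
    have key := lo (q := p ^ j) (Bf A I a) (fun (i : Fin k) (x : ℤ) => (x - a i) / ((p ^ e : ℕ) : ℤ))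
      (-((∑ i, a i) / ((p ^ e : ℕ) : ℤ))) {i₀} 1 le_rfl (by simp)
      (fun _ => u / ((p ^ e : ℕ) : ℤ)) (fun i _ => unit_of_not_dvd hp hdu hndu) η (δ / 3) hη0.le
      (by positivity) (by linarith) ?_
    · refine key.trans (mul_le_mul_of_nonneg_right ?_ (Finset.prod_nonneg fun _ _ =>
        Nat.cast_nonneg _))
      rw [pow_one]
      linarith
    · intro i hi ξ hξ
      rw [mem_singleton] at hi
      subst hi
      rw [hBI i hi₀]
      have h5 : ‖Phi (p ^ j) (A i) (fun x => (x - a i) / ((p ^ e : ℕ) : ℤ)) ξ‖ ≤ 2 / η := by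
        rw [hl]
        refine Phi_AP a0 u ((a0 - a i) / ((p ^ e : ℕ) : ℤ)) (u / ((p ^ e : ℕ) : ℤ)) l hu0 _ ?_ η hη0
          ξ hξ
        intro t _
        obtain ⟨r, hr⟩ := hdu
        obtain ⟨s, hs⟩ := h1 i (hLI hi₀) _ hm0 _ (ha i)
        have e4 : a0 + (t : ℤ) * u - a i = ((p ^ e : ℕ) : ℤ) * (s + t * r) := by
          rw [mul_add, ← hs, hr]; ring
        rw [e4, hs, hr, Int.mul_ediv_cancel_left _ hpe, Int.mul_ediv_cancel_left _ hpe,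
          Int.mul_ediv_cancel_left _ hpe]
      refine h5.trans ?_
      have h6 : 2 / (η * (δ / 3)) ≤ ((A i).card : ℝ) := by
        have h7 : 2 / (η * (δ / 3)) ≤ Λ := (Nat.le_ceil _).trans (by exact_mod_cast le_max_right _ _)
        have h8 : (Λ : ℝ) ≤ (A i).card := by exact_mod_cast hbig.le
        linarith
      rw [div_le_iff₀ (by positivity)] at h6
      rw [div_le_iff₀ hη0]
      linarith
  · have hLc : 2 * (n + 1) ≤ L.card := by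
      rcases hcase with h | h
      · exact h
      · exact absurd h hbig
    push Not at hbig
    have hyz : ∀ i ∈ L, ∃ yz : ℤ × ℤ, yz.1 ∈ A i ∧ yz.2 ∈ A i ∧
        ¬ ((p ^ (e + 1) : ℕ) : ℤ) ∣ yz.1 - yz.2 := by
      intro i hi
      by_contra hcon
      push Not at hcon
      exact hL i hi fun y hy z hz => hcon (y, z) hy hz
    choose! yz hy hz hyzd using hyz
    have hdv : ∀ i ∈ L, ((p ^ e : ℕ) : ℤ) ∣ (yz i).1 - (yz i).2 := fun i hi =>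
      h1 i (hLI hi) _ (hy i hi) _ (hz i hi)
    have hdiv : ∀ i ∈ L, ((yz i).1 - a i) / ((p ^ e : ℕ) : ℤ) - ((yz i).2 - a i) / ((p ^ e : ℕ) : ℤ) =
        ((yz i).1 - (yz i).2) / ((p ^ e : ℕ) : ℤ) := by
      intro i hi
      obtain ⟨r, hr⟩ := h1 i (hLI hi) _ (hy i hi) _ (ha i)
      obtain ⟨s, hs⟩ := h1 i (hLI hi) _ (hz i hi) _ (ha i)
      have e4 : (yz i).1 - (yz i).2 = ((p ^ e : ℕ) : ℤ) * (r - s) := by
        rw [mul_sub, ← hr, ← hs]; ring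
      rw [e4, hr, hs, Int.mul_ediv_cancel_left _ hpe, Int.mul_ediv_cancel_left _ hpe,
        Int.mul_ediv_cancel_left _ hpe]
    have key := lo (q := p ^ j) (Bf A I a) (fun (i : Fin k) (x : ℤ) => (x - a i) / ((p ^ e : ℕ) : ℤ))
      (-((∑ i, a i) / ((p ^ e : ℕ) : ℤ))) L (n + 1) (by omega) (by omega)
      (fun i => ((yz i).1 - a i) / ((p ^ e : ℕ) : ℤ) - ((yz i).2 - a i) / ((p ^ e : ℕ) : ℤ))
      (fun i hi => by
        rw [hdiv i hi]
        exact unit_of_not_dvd hp (hdv i hi) (hyzd i hi)) η ρ hη0.le hρ0 hρ1.le ?_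
    · refine key.trans (mul_le_mul_of_nonneg_right ?_ (Finset.prod_nonneg fun _ _ =>
        Nat.cast_nonneg _))
      have h5 : ρ ^ (n + 1) ≤ ρ ^ n := pow_le_pow_of_le_one hρ0 hρ1.le (by omega)
      linarith
    · intro i hi ξ hξ
      rw [hBI i hi, hρ]
      refine Phi_small (A i) _ (yz i).1 (yz i).2 (hy i hi) (hz i hi) ?_ Λ (hbig i hi) η hη0.le ξ hξ
      intro h
      apply hyzd i hi
      rw [h, sub_self]
      exact dvd_zero _

end Pool.Agent.Helper37HC
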