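import Mathlib
import Pool.Agent.Helper37HC.Cnt
import Pool.Agent.R849.SV.Arb

/-!
# Direct sums without bad primes
-/

set_option autoImplicit false

namespace Pool.Agent.Helper37HC

open Finset Pool.Agent.Y359.PE Pool.Agent.R849.SV Pool.Agent.R849.RF

/-- the set of the sums -/
def sums {k : ℕ} (A : Fin k → Finset ℤ) : Finset ℤ :=
  (Fintype.piFinset A).image fun x => ∑ i, x i

lemma fa_dvd {p t : ℕ} (hp : p.Prime) {x : ℤ} (hx : x ≠ 0) :
    ((p ^ t : ℕ) : ℤ) ∣ x ↔ t ≤ fa x p := by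
  unfold fa
  rw [Int.natCast_dvd, hp.pow_dvd_iff_le_factorization (Int.natAbs_ne_zero.2 hx)]

lemma fa_eq_of_congr {p e : ℕ} (hp : p.Prime) {x y : ℤ} (h : ((p ^ e : ℕ) : ℤ) ∣ x - y)
    (hx : ¬ ((p ^ e : ℕ) : ℤ) ∣ x) (hy : ¬ ((p ^ e : ℕ) : ℤ) ∣ y) : fa x p = fa y p := by
  have hx0 : x ≠ 0 := by rintro rfl; exact hx (dvd_zero _)
  have hy0 : y ≠ 0 := by rintro rfl; exact hy (dvd_zero _)
  rw [fa_dvd hp hx0, not_le] at hx
  rw [fa_dvd hp hy0, not_le] at hy
  have key : ∀ t : ℕ, t ≤ e → (((p ^ t : ℕ) : ℤ) ∣ x ↔ ((p ^ t : ℕ) : ℤ) ∣ y) := by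
    intro t ht
    have h1 : ((p ^ t : ℕ) : ℤ) ∣ x - y :=
      (Int.natCast_dvd_natCast.2 (pow_dvd_pow p ht)).trans h
    exact ⟨fun h2 => by simpa using dvd_sub h2 h1, fun h2 => by simpa using dvd_add h1 h2⟩
  apply le_antisymm
  · rw [← fa_dvd hp hy0, ← key _ hx.le, fa_dvd hp hx0]
  · rw [← fa_dvd hp hx0, key _ hy.le, fa_dvd hp hy0]

lemma parts_empty {B : Finset ℤ} (hB : B.Nonempty) : (parts ∅ B).card = 1 := by
  classical
  unfold parts
  have : (B.image fun (a : ℤ) (p : ℕ) => if p ∈ (∅ : Finset ℕ) then fa a p else 0) =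
      B.image fun (_ : ℤ) (_ : ℕ) => 0 := by
    refine image_congr fun a _ => ?_
    funext p
    simp
  rw [this, Finset.image_const hB, card_singleton]

lemma Bf_card {k : ℕ} (A : Fin k → Finset ℤ) (I : Finset (Fin k)) (a : Fin k → ℤ) :
    ∏ i, (Bf A I a i).card = ∏ i ∈ I, (A i).card := by
  classical
  rw [← Finset.prod_subset (subset_univ I)]
  · refine Finset.prod_congr rfl fun i hi => ?_
    rw [Bf, if_pos hi]
  · intro i _ hi
    rw [Bf, if_neg hi, card_singleton]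

lemma AB_mono {X : Finset ℂ} {B C : Finset ℤ} (h : B ⊆ C) : AB X B ⊆ AB X C := by
  unfold AB
  exact image_subset_image (product_subset_product_right h)

lemma half_rpow {ε x n y : ℝ} (hε : 0 < ε) (hε1 : ε ≤ 1) (hx : 0 < x) (hn : 0 < n)
    (h : n / 2 ≤ y) : (x * n) ^ (1 - ε) / 2 ≤ (x * y) ^ (1 - ε) := by
  have h5 : x * n / 2 ≤ x * y := by
    rw [mul_div_assoc]
    exact mul_le_mul_of_nonneg_left h hx.le
  have h6 := Real.rpow_le_rpow (by positivity) h5 (show 0 ≤ 1 - ε by linarith)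
  refine le_trans ?_ h6
  rw [Real.div_rpow (by positivity) (by norm_num)]
  have h7 : (2 : ℝ) ^ (1 - ε) ≤ 2 := by
    calc (2 : ℝ) ^ (1 - ε) ≤ 2 ^ (1 : ℝ) :=
          Real.rpow_le_rpow_of_exponent_le (by norm_num) (by linarith)
      _ = 2 := Real.rpow_one 2
  exact div_le_div_of_nonneg_left (by positivity) (by positivity) h7

theorem done (b : ℕ) (ε : ℝ) (hε : 0 < ε) (hε1 : ε ≤ 1) : ∃ (M Λ : ℕ) (c : ℝ), 1 ≤ M ∧ b ≤ Λ ∧
    0 < c ∧ ∀ (k : ℕ) (A : Fin k → Finset ℤ) (I : Finset (Fin k)) (a : Fin k → ℤ),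
      (∀ i, 2 ≤ (A i).card) → (∀ i, (A i).card ≤ b ∨ IsAP (A i)) →
      Set.InjOn (fun x : Fin k → ℤ => ∑ i, x i) (Fintype.piFinset A : Finset (Fin k → ℤ)) →
      (∀ i, a i ∈ A i) → I.Nonempty → (∀ p : ℕ, p.Prime → Safe A I a p ∨ Spr A I a M Λ p) →
      ∀ X : Finset ℂ, X.Nonempty → (0 : ℂ) ∉ X →
      c * ((X.card : ℝ) * ∏ i ∈ I, ((A i).card : ℝ)) ^ (1 - ε) ≤
        (AB X ((sums A).erase 0)).card := by
  classical
  obtain ⟨δ, hδ, hs⟩ := spreadA ε hε hε1
  obtain ⟨m, Λ, M, hm, hbΛ, hM, hcnt⟩ := spr_count (δ / 2) (by positivity) b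
  obtain ⟨c, hc, hs⟩ := hs m
  refine ⟨M, Λ, c / 2, hM, hbΛ, by positivity, ?_⟩
  intro k A I a h2 hAb hinj ha hI hall X hX hX0
  set F := Bf A I a with hF
  have hFA : Fintype.piFinset F ⊆ Fintype.piFinset A := by
    intro x hx
    rw [hF, mem_Bf] at hx
    rw [Fintype.mem_piFinset]
    intro i
    by_cases hi : i ∈ I
    · exact hx.1 i hi
    · rw [hx.2 i hi]; exact ha i
  have hinjF : Set.InjOn (fun x : Fin k → ℤ => ∑ i, x i) (Fintype.piFinset F : Finset (Fin k → ℤ)) :=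
    hinj.mono (by exact_mod_cast hFA)
  obtain ⟨N, hN⟩ : ∃ N : ℕ, N = ∏ i ∈ I, (A i).card := ⟨_, rfl⟩
  have hN2 : 2 ≤ N := by
    obtain ⟨i, hi⟩ := hI
    calc 2 ≤ (A i).card := h2 i
      _ ≤ N := by
        rw [hN]
        exact Finset.single_le_prod' (f := fun i => (A i).card)
          (fun j _ => by have := h2 j; show 1 ≤ (A j).card; omega) hi
  have hcardF : (sums F).card = N := by
    unfold sums
    rw [card_image_of_injOn hinjF, Fintype.card_piFinset, hF, Bf_card, hN]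
  set B := (sums F).erase 0 with hB
  have hBcard : N ≤ B.card + 1 := by
    rw [← hcardF, hB]
    have := Finset.pred_card_le_card_erase (s := sums F) (a := 0)
    omega
  have hBne : B.Nonempty := card_pos.1 (by omega)
  have h0B : (0 : ℤ) ∉ B := notMem_erase _ _
  -- the typical valuations
  have hval : ∀ p : ℕ, ∃ e : ℕ, p.Prime →
      ((B.filter fun b => m ≤ p ^ ((fa b p : ℤ) - e).natAbs).card : ℝ) ≤ δ * B.card := by
    intro p
    by_cases hp : p.Prime
    swap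
    · exact ⟨0, fun h => absurd h hp⟩
    rcases hall p hp with h | h
    · -- safe
      obtain ⟨e, h3, h4⟩ := h
      have haF : a ∈ Fintype.piFinset (Bf A I a) := mem_Bf.2 ⟨fun i _ => ha i, fun i _ => rfl⟩
      refine ⟨fa (∑ i, a i) p, fun _ => ?_⟩
      have hemp : (B.filter fun b => m ≤ p ^ ((fa b p : ℤ) - (fa (∑ i, a i) p : ℕ)).natAbs) = ∅ := by
        rw [filter_eq_empty_iff]
        intro b hb
        rw [hB, mem_erase] at hb
        obtain ⟨x, hx, rfl⟩ := mem_image.1 hb.2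
        have h5 := fa_eq_of_congr hp (sum_sub_dvd h3 hx haF) (h4 x hx) (h4 a haF)
        rw [h5, sub_self, Int.natAbs_zero, pow_zero]
        omega
      rw [hemp, card_empty, Nat.cast_zero]
      positivity
    · -- many coordinates of minimal valuation
      obtain ⟨e, h3, h4, h5⟩ := h
      refine ⟨e, fun _ => ?_⟩
      have hex : ∃ j, m ≤ p ^ j := ⟨m, (Nat.lt_pow_self hp.one_lt).le⟩
      have hj := Nat.find_spec hex
      have h6 := hcnt k A I a p e (Nat.find hex) h2 hAb hp ha h3 h4 h5 hj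
      have h7 : (B.filter fun b => m ≤ p ^ ((fa b p : ℤ) - e).natAbs) ⊆
          ((Fintype.piFinset (Bf A I a)).filter fun x =>
            ((p ^ (e + Nat.find hex) : ℕ) : ℤ) ∣ ∑ i, x i).image fun x => ∑ i, x i := by
        intro b hb
        rw [mem_filter, hB, mem_erase] at hb
        obtain ⟨⟨hb0, hbs⟩, hbm⟩ := hb
        obtain ⟨x, hx, rfl⟩ := mem_image.1 hbs
        refine mem_image.2 ⟨x, mem_filter.2 ⟨hx, ?_⟩, rfl⟩
        rw [fa_dvd hp hb0]
        have h8 := (fa_dvd hp hb0).1 (h4 x hx)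
        have h9 : ((fa (∑ i, x i) p : ℤ) - e).natAbs = fa (∑ i, x i) p - e := by omega
        rw [h9] at hbm
        have h10 := Nat.find_min' hex hbm
        omega
      have h8 : ((B.filter fun b => m ≤ p ^ ((fa b p : ℤ) - e).natAbs).card : ℝ) ≤
          δ / 2 * ∏ i, ((Bf A I a i).card : ℝ) := by
        refine le_trans ?_ h6
        exact_mod_cast (card_le_card h7).trans card_image_le
      have h9 : ∏ i, ((Bf A I a i).card : ℝ) = (N : ℝ) := by
        rw [hN, ← Bf_card A I a]; push_cast; rfl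
      rw [h9] at h8
      have h10 : (N : ℝ) ≤ 2 * B.card := by
        have : N ≤ 2 * B.card := by omega
        exact_mod_cast this
      calc _ ≤ δ / 2 * (N : ℝ) := h8
        _ ≤ δ / 2 * (2 * B.card) := by gcongr
        _ = δ * B.card := by ring
  choose e he using hval
  have h1 := hs B hBne h0B ∅ e (fun p hp _ => he p hp) X hX hX0
  rw [parts_empty hBne, Nat.cast_one, div_one] at h1
  have hsub : B ⊆ (sums A).erase 0 := by
    rw [hB]
    exact erase_subset_erase _ (image_subset_image hFA)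
  have h3 : ((AB X B).card : ℝ) ≤ (AB X ((sums A).erase 0)).card := by
    exact_mod_cast card_le_card (AB_mono hsub)
  refine le_trans ?_ h3
  refine le_trans ?_ h1
  have hNB : (N : ℝ) / 2 ≤ B.card := by
    have : N ≤ 2 * B.card := by omega
    have : (N : ℝ) ≤ 2 * B.card := by exact_mod_cast this
    linarith
  have hXp : (0 : ℝ) < X.card := by exact_mod_cast card_pos.2 hX
  have hNp : (0 : ℝ) < N := by
    have : 0 < N := by omega
    exact_mod_cast this
  have e1 : ∏ i ∈ I, ((A i).card : ℝ) = (N : ℝ) := by rw [hN]; push_cast; rfl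
  rw [e1]
  have h4 : ((X.card : ℝ) * N) ^ (1 - ε) / 2 ≤ ((X.card : ℝ) * B.card) ^ (1 - ε) :=
    half_rpow hε hε1 hXp hNp hNB
  calc c / 2 * ((X.card : ℝ) * N) ^ (1 - ε) = c * (((X.card : ℝ) * N) ^ (1 - ε) / 2) := by ring
    _ ≤ c * ((X.card : ℝ) * B.card) ^ (1 - ε) := mul_le_mul_of_nonneg_left h4 hc.le

end Pool.Agent.Helper37HC
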