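import Mathlib
import Pool.Agent.Helper37HC.Done

/-!
# Products with direct sums of many sets
-/

set_option autoImplicit false

namespace Pool.Agent.Helper37HC

open Finset Pool.Agent.Y359.PE Pool.Agent.R849.SV Pool.Agent.R849.RF

lemma card_out {k : ℕ} {A : Fin k → Finset ℤ} {Λ : ℕ} {I : Finset (Fin k)}
    (h : ∀ i, i ∉ I → (A i).card ≤ Λ) :
    ∏ i, (A i).card ≤ (∏ i ∈ I, (A i).card) * (Λ + 2) ^ (univ \ I).card := by
  classical
  rw [← Finset.prod_sdiff (subset_univ I), mul_comm]
  refine Nat.mul_le_mul_left _ ?_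
  calc ∏ i ∈ univ \ I, (A i).card ≤ ∏ i ∈ univ \ I, (Λ + 2) := by
        refine Finset.prod_le_prod' fun i hi => ?_
        have := h i (mem_sdiff.1 hi).2
        omega
    _ = (Λ + 2) ^ (univ \ I).card := by rw [Finset.prod_const]

lemma two_pow_le {k : ℕ} {A : Fin k → Finset ℤ} (h : ∀ i, 2 ≤ (A i).card) :
    2 ^ k ≤ ∏ i, (A i).card := by
  calc 2 ^ k = ∏ _i : Fin k, 2 := by simp
    _ ≤ ∏ i, (A i).card := Finset.prod_le_prod' fun i _ => h i

lemma AB_ge {X : Finset ℂ} {B : Finset ℤ} (hB : (B.erase 0).Nonempty) :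
    X.card ≤ (AB X (B.erase 0)).card := by
  classical
  obtain ⟨s, hs⟩ := hB
  have hs0 : (s : ℂ) ≠ 0 := by
    have := (mem_erase.1 hs).1
    exact_mod_cast this
  refine card_le_card_of_injOn (fun z => z * (s : ℂ)) ?_ ?_
  · intro z hz
    exact mem_image.2 ⟨(z, s), mem_product.2 ⟨hz, hs⟩, rfl⟩
  · intro y _ z _ h
    exact mul_right_cancel₀ hs0 h

lemma rpow_large {ε x n r : ℝ} (hε : 0 < ε) (hε1 : ε ≤ 1) (hx : 1 ≤ x) (hn : 1 ≤ n)
    (hr : n ^ (1 - ε / 3) ≤ r) : (x * n) ^ (1 - ε) ≤ (x * r) ^ (1 - ε / 3) := by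
  have hx0 : 0 < x := by linarith
  have hn0 : 0 < n := by linarith
  have hxn : 1 ≤ x * n := by nlinarith
  have h1 : (x * n) ^ (1 - ε / 3) ≤ x * r := by
    rw [Real.mul_rpow hx0.le hn0.le]
    have h2 : x ^ (1 - ε / 3) ≤ x := by
      calc x ^ (1 - ε / 3) ≤ x ^ (1 : ℝ) := Real.rpow_le_rpow_of_exponent_le hx (by linarith)
        _ = x := Real.rpow_one x
    exact mul_le_mul h2 hr (by positivity) hx0.le
  have h3 := Real.rpow_le_rpow (by positivity) h1 (show 0 ≤ 1 - ε / 3 by linarith)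
  refine le_trans ?_ h3
  rw [← Real.rpow_mul (by positivity)]
  exact Real.rpow_le_rpow_of_exponent_le hxn (by nlinarith)

theorem main (b : ℕ) (ε κ : ℝ) (hε : 0 < ε) (hε1 : ε ≤ 1) (hκ : 0 < κ) :
    ∃ η c : ℝ, 0 < η ∧ 0 < c ∧ ∀ (k : ℕ) (A : Fin k → Finset ℤ), 1 ≤ k →
      (∀ i, 2 ≤ (A i).card) → (∀ i, (A i).card ≤ b ∨ IsAP (A i)) →
      Set.InjOn (fun x : Fin k → ℤ => ∑ i, x i) (Fintype.piFinset A : Finset (Fin k → ℤ)) →
      ∀ g : ℕ, 0 < g → (∀ i, Dv g (A i)) →
      ∀ T : Finset ℕ, (T.card : ℝ) ≤ η * k →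
      (∀ p : ℕ, p.Prime → (∃ E : Finset (Fin k), (E.card : ℝ) ≤ κ * k ∧ ∀ i ∉ E, Dv (p * g) (A i)) →
        p ∈ T) →
      ∀ X : Finset ℂ, X.Nonempty → (0 : ℂ) ∉ X →
      c * ((X.card : ℝ) * (sums A).card) ^ (1 - ε) ≤ (AB X ((sums A).erase 0)).card := by
  classical
  obtain ⟨M, Λ, c₁, hM, hbΛ, hc₁, hdone⟩ := done b (ε / 3) (by positivity) (by linarith)
  have hMr : (1 : ℝ) ≤ M := by exact_mod_cast hM
  have hM0 : (0 : ℝ) < M := by linarith
  have hlog : 0 < Real.log ((Λ : ℝ) + 2) := Real.log_pos (by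
    have : (0 : ℝ) ≤ Λ := Nat.cast_nonneg _
    linarith)
  have hl2 : 0 < Real.log 2 := Real.log_pos (by norm_num)
  obtain ⟨η, hη⟩ : ∃ η : ℝ, η = min (κ / (2 * M)) (min (1 / (2 * M))
    (ε / 3 * Real.log 2 / (M * Real.log ((Λ : ℝ) + 2)))) := ⟨_, rfl⟩
  have hη0 : 0 < η := by rw [hη]; positivity
  have hη1 : η ≤ κ / (2 * M) := by rw [hη]; exact min_le_left _ _
  have hη2 : η ≤ 1 / (2 * M) := by rw [hη]; exact (min_le_right _ _).trans (min_le_left _ _)
  have hη3 : η ≤ ε / 3 * Real.log 2 / (M * Real.log ((Λ : ℝ) + 2)) := by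
    rw [hη]; exact (min_le_right _ _).trans (min_le_right _ _)
  obtain ⟨k₀, hk₀⟩ : ∃ k₀ : ℕ, k₀ = ⌈2 * M / κ⌉₊ + 1 := ⟨_, rfl⟩
  obtain ⟨C₀, hC₀⟩ : ∃ C₀ : ℝ, C₀ = ((Λ : ℝ) + 2) ^ (M * k₀) := ⟨_, rfl⟩
  have hΛ2 : (1 : ℝ) ≤ (Λ : ℝ) + 2 := by
    have : (0 : ℝ) ≤ Λ := Nat.cast_nonneg _
    linarith
  have hC1 : 1 ≤ C₀ := by rw [hC₀]; exact one_le_pow₀ hΛ2
  have hC0 : 0 < C₀ := by linarith
  refine ⟨η, min c₁ 1 / C₀, hη0, by positivity, ?_⟩
  intro k A hk h2 hAb hinj g hg hA T hT hpop X hX hX0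
  have hcard : (sums A).card = ∏ i, (A i).card := by
    unfold sums
    rw [card_image_of_injOn hinj, Fintype.card_piFinset]
  obtain ⟨N, hN⟩ : ∃ N : ℕ, N = ∏ i, (A i).card := ⟨_, rfl⟩
  rw [hcard, ← hN]
  have h2k : 2 ^ k ≤ N := by rw [hN]; exact two_pow_le h2
  have hN2 : 2 ≤ N := by
    calc 2 = 2 ^ 1 := rfl
      _ ≤ 2 ^ k := Nat.pow_le_pow_right (by norm_num) hk
      _ ≤ N := h2k
  have hN1 : (1 : ℝ) ≤ N := by
    have : 1 ≤ N := by omega
    exact_mod_cast this
  have hX1 : (1 : ℝ) ≤ X.card := by exact_mod_cast card_pos.2 hX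
  have hXN1 : (1 : ℝ) ≤ X.card * N := by nlinarith
  have hkr : (1 : ℝ) ≤ k := by exact_mod_cast hk
  rcases le_or_gt k₀ k with hkk | hkk
  · -- many summands
    have hkM : 2 * M ≤ κ * k := by
      have h3 : 2 * M / κ ≤ k₀ := by
        rw [hk₀]
        push_cast
        have := Nat.le_ceil (2 * (M : ℝ) / κ)
        linarith
      have h4 : (k₀ : ℝ) ≤ k := by exact_mod_cast hkk
      have h5 := h3.trans h4
      rw [div_le_iff₀ hκ] at h5
      linarith
    rcases proc hg hA h2 (M := M) (Λ := Λ) (⌊η * k⌋₊ + 1) with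
      ⟨I, a, S, hst, hS, hd⟩ | ⟨I, a, S, hst, hS⟩
    · have hSη : (S.card : ℝ) ≤ η * k := by
        have h3 : S.card ≤ ⌊η * k⌋₊ := by omega
        calc (S.card : ℝ) ≤ (⌊η * k⌋₊ : ℝ) := by exact_mod_cast h3
          _ ≤ η * k := Nat.floor_le (by positivity)
      have hout : ((univ \ I).card : ℝ) ≤ M * (η * k) := by
        calc ((univ \ I).card : ℝ) ≤ ((M * S.card : ℕ) : ℝ) := by exact_mod_cast hst.up
          _ = M * S.card := by push_cast; ring
          _ ≤ M * (η * k) := mul_le_mul_of_nonneg_left hSη hM0.le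
      have hI : I.Nonempty := by
        by_contra hcon
        rw [not_nonempty_iff_eq_empty] at hcon
        rw [hcon, sdiff_empty, card_univ, Fintype.card_fin] at hout
        have h3 : M * (η * k) ≤ k / 2 := by
          calc M * (η * k) ≤ M * (1 / (2 * M) * k) := by gcongr
            _ = k / 2 := by field_simp
        linarith
      have hgood := hd.resolve_left hI.ne_empty
      have h3 := hdone k A I a h2 hAb hinj hst.mem hI hgood X hX hX0
      -- the fixed coordinates
      have h4 : (N : ℝ) ≤ (∏ i ∈ I, ((A i).card : ℝ)) * (N : ℝ) ^ (ε / 3) := by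
        have h5 := card_out (A := A) (Λ := Λ) (I := I) hst.small
        rw [← hN] at h5
        have h6 : (N : ℝ) ≤ (∏ i ∈ I, ((A i).card : ℝ)) * ((Λ : ℝ) + 2) ^ (univ \ I).card := by
          exact_mod_cast h5
        refine h6.trans (mul_le_mul_of_nonneg_left ?_ (Finset.prod_nonneg fun _ _ =>
          Nat.cast_nonneg _))
        have h7 : ((Λ : ℝ) + 2) ^ (univ \ I).card ≤ ((Λ : ℝ) + 2) ^ (M * (η * k)) := by
          rw [← Real.rpow_natCast]
          exact Real.rpow_le_rpow_of_exponent_le hΛ2 hout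
        have h8 : ((Λ : ℝ) + 2) ^ (M * (η * k)) ≤ (2 : ℝ) ^ (k * (ε / 3)) := by
          rw [Real.rpow_def_of_pos (by linarith), Real.rpow_def_of_pos (by norm_num)]
          apply Real.exp_le_exp.2
          rw [le_div_iff₀ (by positivity)] at hη3
          calc Real.log ((Λ : ℝ) + 2) * (M * (η * k)) =
                (η * (M * Real.log ((Λ : ℝ) + 2))) * k := by ring
            _ ≤ (ε / 3 * Real.log 2) * k := by gcongr
            _ = Real.log 2 * (k * (ε / 3)) := by ring
        have h9 : (2 : ℝ) ^ (k * (ε / 3)) ≤ (N : ℝ) ^ (ε / 3) := by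
          rw [Real.rpow_mul (by norm_num), Real.rpow_natCast]
          refine Real.rpow_le_rpow (by positivity) ?_ (by positivity)
          exact_mod_cast h2k
        exact h7.trans (h8.trans h9)
      have h5 : (N : ℝ) ^ (1 - ε / 3) ≤ ∏ i ∈ I, ((A i).card : ℝ) := by
        rw [Real.rpow_sub (by linarith), Real.rpow_one, div_le_iff₀ (by positivity)]
        exact h4
      refine le_trans ?_ h3
      have h6 := rpow_large hε hε1 hX1 hN1 h5
      have h7 : min c₁ 1 / C₀ ≤ c₁ :=
        (div_le_self (by positivity) hC1).trans (min_le_left _ _)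
      exact mul_le_mul h7 h6 (by positivity) hc₁.le
    · exfalso
      have hsub : S ⊆ T := by
        intro p hp
        refine hpop p (hst.prime p hp) ⟨univ \ I, ?_, fun i hi => ?_⟩
        · have h3 : ((univ \ I).card : ℝ) ≤ M * (η * k + 1) := by
            calc ((univ \ I).card : ℝ) ≤ ((M * S.card : ℕ) : ℝ) := by exact_mod_cast hst.up
              _ = M * S.card := by push_cast; ring
              _ ≤ M * (η * k + 1) := by
                refine mul_le_mul_of_nonneg_left ?_ hM0.le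
                rw [hS]
                push_cast
                have := Nat.floor_le (show 0 ≤ η * k by positivity)
                linarith
          have h4 : M * (η * k) ≤ κ * k / 2 := by
            calc M * (η * k) ≤ M * (κ / (2 * M) * k) := by gcongr
              _ = κ * k / 2 := by field_simp
          linarith
        · apply hst.pop p hp
          rw [mem_sdiff, not_and, not_not] at hi
          exact hi (mem_univ _)
      have h3 : ((⌊η * k⌋₊ + 1 : ℕ) : ℝ) ≤ η * k := by
        rw [← hS]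
        refine le_trans ?_ hT
        exact_mod_cast card_le_card hsub
      have h4 := Nat.lt_floor_add_one (η * k)
      push_cast at h3
      linarith
  · -- few summands
    rcases proc hg hA h2 (M := M) (Λ := Λ) (k + 1) with
      ⟨I, a, S, hst, hS, hd⟩ | ⟨I, a, S, hst, hS⟩
    · have hout : (univ \ I).card ≤ M * k₀ := by
        refine hst.up.trans (Nat.mul_le_mul_left _ ?_)
        omega
      have h5 : (N : ℝ) ≤ (∏ i ∈ I, ((A i).card : ℝ)) * C₀ := by
        have h5 := card_out (A := A) (Λ := Λ) (I := I) hst.small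
        rw [← hN] at h5
        have h6 : (N : ℝ) ≤ (∏ i ∈ I, ((A i).card : ℝ)) * ((Λ : ℝ) + 2) ^ (univ \ I).card := by
          exact_mod_cast h5
        refine h6.trans (mul_le_mul_of_nonneg_left ?_ (Finset.prod_nonneg fun _ _ =>
          Nat.cast_nonneg _))
        rw [hC₀]
        exact pow_le_pow_right₀ hΛ2 hout
      have hle : ((X.card : ℝ) * N) ^ (1 - ε) ≤ X.card * N := by
        calc ((X.card : ℝ) * N) ^ (1 - ε) ≤ ((X.card : ℝ) * N) ^ (1 : ℝ) :=
              Real.rpow_le_rpow_of_exponent_le hXN1 (by linarith)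
          _ = _ := Real.rpow_one _
      rcases eq_empty_or_nonempty I with hI | hI
      · rw [hI, Finset.prod_empty, one_mul] at h5
        have hne : ((sums A).erase 0).Nonempty := by
          apply card_pos.1
          have := Finset.pred_card_le_card_erase (s := sums A) (a := 0)
          rw [hcard, ← hN] at this
          omega
        have h6 : (X.card : ℝ) ≤ (AB X ((sums A).erase 0)).card := by
          exact_mod_cast AB_ge hne
        refine le_trans ?_ h6
        calc min c₁ 1 / C₀ * ((X.card : ℝ) * N) ^ (1 - ε) ≤ 1 / C₀ * (X.card * N) := by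
              gcongr
              exact min_le_right _ _
          _ ≤ 1 / C₀ * (X.card * C₀) := by gcongr
          _ = X.card := by field_simp
      · have hgood := hd.resolve_left hI.ne_empty
        have h3 := hdone k A I a h2 hAb hinj hst.mem hI hgood X hX hX0
        refine le_trans ?_ h3
        have h6 : ((X.card : ℝ) * N) ^ (1 - ε) / C₀ ≤
            ((X.card : ℝ) * ∏ i ∈ I, ((A i).card : ℝ)) ^ (1 - ε / 3) := by
          have h7 : (X.card : ℝ) * N / C₀ ≤ X.card * ∏ i ∈ I, ((A i).card : ℝ) := by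
            rw [mul_div_assoc]
            refine mul_le_mul_of_nonneg_left ?_ (by linarith)
            rw [div_le_iff₀ hC0]
            exact h5
          have h8 := Real.rpow_le_rpow (by positivity) h7 (show 0 ≤ 1 - ε / 3 by linarith)
          refine le_trans ?_ h8
          rw [Real.div_rpow (by positivity) (by positivity)]
          have h9 : C₀ ^ (1 - ε / 3) ≤ C₀ := by
            calc C₀ ^ (1 - ε / 3) ≤ C₀ ^ (1 : ℝ) :=
                  Real.rpow_le_rpow_of_exponent_le hC1 (by linarith)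
              _ = C₀ := Real.rpow_one _
          have h10 : ((X.card : ℝ) * N) ^ (1 - ε) ≤ ((X.card : ℝ) * N) ^ (1 - ε / 3) :=
            Real.rpow_le_rpow_of_exponent_le hXN1 (by linarith)
          exact div_le_div₀ (by positivity) h10 (by positivity) h9
        calc min c₁ 1 / C₀ * ((X.card : ℝ) * N) ^ (1 - ε) =
              min c₁ 1 * (((X.card : ℝ) * N) ^ (1 - ε) / C₀) := by ring
          _ ≤ c₁ * ((X.card : ℝ) * ∏ i ∈ I, ((A i).card : ℝ)) ^ (1 - ε / 3) :=
              mul_le_mul (min_le_left _ _) h6 (by positivity) hc₁.le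
    · exfalso
      have h3 := hst.low
      rw [hS] at h3
      have h4 : (univ \ I).card ≤ k := by
        calc (univ \ I).card ≤ (univ : Finset (Fin k)).card := card_le_card sdiff_subset
          _ = k := by simp
      omega

end Pool.Agent.Helper37HC
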