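import Mathlib
import Pool.Agent.Helper37HC.Main

/-!
# Consequences
-/

set_option autoImplicit false

namespace Pool.Agent.Helper37HC

open Finset Pool.Agent.Y359.PE Pool.Agent.R849.SV Pool.Agent.R849.RF
open scoped Pointwise

/-- `A` has large product sets with constant `c` and loss `ε` -/
def Big (c ε : ℝ) (A : Finset ℤ) : Prop :=
  (∀ X : Finset ℂ, X.Nonempty → (0 : ℂ) ∉ X →
    c * ((X.card : ℝ) * A.card) ^ (1 - ε) ≤ (AB X (A.erase 0)).card) ∧
  c * (A.card : ℝ) ^ (2 - ε) ≤ (A * A).card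

lemma Big.mono {c c' ε : ℝ} {A : Finset ℤ} (hc : c ≤ c') (h : Big c' ε A) : Big c ε A :=
  ⟨fun X hX hX0 => le_trans (mul_le_mul_of_nonneg_right hc (by positivity)) (h.1 X hX hX0),
    le_trans (mul_le_mul_of_nonneg_right hc (by positivity)) h.2⟩

lemma AB_self_le (A : Finset ℤ) :
    (AB ((A.erase 0).image fun a : ℤ => (a : ℂ)) (A.erase 0)).card ≤ (A * A).card := by
  classical
  have h : AB ((A.erase 0).image fun a : ℤ => (a : ℂ)) (A.erase 0) ⊆
      (A * A).image fun a : ℤ => (a : ℂ) := by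
    intro z hz
    obtain ⟨⟨x, y⟩, hxy, rfl⟩ := mem_image.1 hz
    rw [mem_product] at hxy
    obtain ⟨hx, hy⟩ := hxy
    obtain ⟨a, ha, hax⟩ := mem_image.1 hx
    refine mem_image.2 ⟨a * y, mul_mem_mul (mem_of_mem_erase ha) (mem_of_mem_erase hy), ?_⟩
    simp only at hax ⊢
    rw [← hax]
    push_cast
    rfl
  exact (card_le_card h).trans card_image_le

lemma big_of {c ε : ℝ} (hc : 0 < c) (hε : 0 < ε) (hε1 : ε ≤ 1) {A : Finset ℤ} (hA : 2 ≤ A.card)
    (h : ∀ X : Finset ℂ, X.Nonempty → (0 : ℂ) ∉ X →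
      c * ((X.card : ℝ) * A.card) ^ (1 - ε / 2) ≤ (AB X (A.erase 0)).card) :
    Big (c / 2) ε A := by
  classical
  have hA1 : (1 : ℝ) ≤ A.card := by
    have : 1 ≤ A.card := by omega
    exact_mod_cast this
  refine ⟨fun X hX hX0 => ?_, ?_⟩
  · refine le_trans ?_ (h X hX hX0)
    have hX1 : (1 : ℝ) ≤ X.card := by exact_mod_cast card_pos.2 hX
    have h1 : (1 : ℝ) ≤ X.card * A.card := by nlinarith
    have h2 : ((X.card : ℝ) * A.card) ^ (1 - ε) ≤ ((X.card : ℝ) * A.card) ^ (1 - ε / 2) :=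
      Real.rpow_le_rpow_of_exponent_le h1 (by linarith)
    have h3 : c / 2 ≤ c := by linarith
    exact mul_le_mul h3 h2 (by positivity) hc.le
  · have h0 : ((A.erase 0).image fun a : ℤ => (a : ℂ)).card = (A.erase 0).card :=
      card_image_of_injective _ Int.cast_injective
    have h1 : A.card ≤ (A.erase 0).card + 1 := by
      have := Finset.pred_card_le_card_erase (s := A) (a := 0)
      omega
    have h2 : (A.card : ℝ) / 2 ≤ (A.erase 0).card := by
      have : A.card ≤ 2 * (A.erase 0).card := by omega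
      have : (A.card : ℝ) ≤ 2 * (A.erase 0).card := by exact_mod_cast this
      linarith
    have hne : ((A.erase 0).image fun a : ℤ => (a : ℂ)).Nonempty := by
      rw [← card_pos, h0]; omega
    have hz : (0 : ℂ) ∉ (A.erase 0).image fun a : ℤ => (a : ℂ) := by
      intro h3
      obtain ⟨a, ha, ha0⟩ := mem_image.1 h3
      have : a = 0 := by exact_mod_cast ha0
      exact (mem_erase.1 ha).1 this
    have h3 := h _ hne hz
    rw [h0] at h3
    have h4 : ((AB ((A.erase 0).image fun a : ℤ => (a : ℂ)) (A.erase 0)).card : ℝ) ≤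
        (A * A).card := by exact_mod_cast AB_self_le A
    refine le_trans ?_ (h3.trans h4)
    have hAp : (0 : ℝ) < A.card := by linarith
    have h5 : (A.card : ℝ) * A.card / 2 ≤ ((A.erase 0).card : ℝ) * A.card := by
      have := mul_le_mul_of_nonneg_right h2 hAp.le
      linarith
    have h6 := Real.rpow_le_rpow (by positivity) h5 (show 0 ≤ 1 - ε / 2 by linarith)
    have h7 : (A.card : ℝ) ^ (2 - ε) / 2 ≤ ((A.card : ℝ) * A.card / 2) ^ (1 - ε / 2) := by
      rw [Real.div_rpow (by positivity) (by norm_num)]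
      have h8 : ((A.card : ℝ) * A.card) ^ (1 - ε / 2) = (A.card : ℝ) ^ (2 - ε) := by
        rw [← sq, ← Real.rpow_natCast, ← Real.rpow_mul hAp.le]
        congr 1
        push_cast
        ring
      rw [h8]
      have h9 : (2 : ℝ) ^ (1 - ε / 2) ≤ 2 := by
        calc (2 : ℝ) ^ (1 - ε / 2) ≤ 2 ^ (1 : ℝ) :=
              Real.rpow_le_rpow_of_exponent_le (by norm_num) (by linarith)
          _ = 2 := Real.rpow_one 2
      exact div_le_div_of_nonneg_left (by positivity) (by positivity) h9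
    calc c / 2 * (A.card : ℝ) ^ (2 - ε) = c * ((A.card : ℝ) ^ (2 - ε) / 2) := by ring
      _ ≤ c * (((A.erase 0).card : ℝ) * A.card) ^ (1 - ε / 2) :=
        mul_le_mul_of_nonneg_left (h7.trans h6) hc.le

lemma sums_card {k : ℕ} {A : Fin k → Finset ℤ}
    (hinj : Set.InjOn (fun x : Fin k → ℤ => ∑ i, x i) (Fintype.piFinset A : Finset (Fin k → ℤ))) :
    (sums A).card = ∏ i, (A i).card := by
  unfold sums
  rw [card_image_of_injOn hinj, Fintype.card_piFinset]

lemma two_le_sums {k : ℕ} (hk : 1 ≤ k) {A : Fin k → Finset ℤ} (h2 : ∀ i, 2 ≤ (A i).card)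
    (hinj : Set.InjOn (fun x : Fin k → ℤ => ∑ i, x i) (Fintype.piFinset A : Finset (Fin k → ℤ))) :
    2 ≤ (sums A).card := by
  rw [sums_card hinj]
  calc 2 = 2 ^ 1 := rfl
    _ ≤ 2 ^ k := Nat.pow_le_pow_right (by norm_num) hk
    _ ≤ _ := two_pow_le h2

/-- few popular primes -/
theorem popular (b : ℕ) (ε κ : ℝ) (hε : 0 < ε) (hε1 : ε ≤ 1) (hκ : 0 < κ) :
    ∃ η c : ℝ, 0 < η ∧ 0 < c ∧ ∀ (k : ℕ) (A : Fin k → Finset ℤ), 1 ≤ k →
      (∀ i, 2 ≤ (A i).card) → (∀ i, (A i).card ≤ b ∨ IsAP (A i)) →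
      Set.InjOn (fun x : Fin k → ℤ => ∑ i, x i) (Fintype.piFinset A : Finset (Fin k → ℤ)) →
      ∀ g : ℕ, 0 < g → (∀ i, Dv g (A i)) →
      ∀ T : Finset ℕ, (T.card : ℝ) ≤ η * k →
      (∀ p : ℕ, p.Prime → (∃ E : Finset (Fin k), (E.card : ℝ) ≤ κ * k ∧ ∀ i ∉ E, Dv (p * g) (A i)) →
        p ∈ T) → Big c ε (sums A) := by
  obtain ⟨η, c, hη, hc, h⟩ := main b (ε / 2) κ (by linarith) (by linarith) hκ
  refine ⟨η, c / 2, hη, by linarith, ?_⟩
  intro k A hk h2 hA hinj g hg hgA T hT hpop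
  exact big_of hc hε hε1 (two_le_sums hk h2 hinj)
    (h k A hk h2 hA hinj g hg hgA T hT hpop)

/-- many differences with few prime factors -/
theorem few (b : ℕ) (ε κ : ℝ) (hε : 0 < ε) (hε1 : ε ≤ 1) (hκ : 0 < κ) :
    ∃ η c : ℝ, 0 < η ∧ 0 < c ∧ ∀ (k : ℕ) (A : Fin k → Finset ℤ), 1 ≤ k →
      (∀ i, 2 ≤ (A i).card) → (∀ i, (A i).card ≤ b ∨ IsAP (A i)) →
      Set.InjOn (fun x : Fin k → ℤ => ∑ i, x i) (Fintype.piFinset A : Finset (Fin k → ℤ)) →
      ∀ g : ℕ, 0 < g → (∀ i, Dv g (A i)) →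
      ∀ G : Finset (Fin k), κ * k ≤ G.card →
      (∀ i ∈ G, ∃ x ∈ A i, ∃ y ∈ A i, ∃ w : ℤ, w ≠ 0 ∧ x - y = g * w ∧
        (w.natAbs.primeFactors.card : ℝ) ≤ η * k) → Big c ε (sums A) := by
  classical
  obtain ⟨η, c, hη, hc, h⟩ := popular b ε (κ / 2) hε hε1 (by linarith)
  refine ⟨η / 2, c, by linarith, hc, ?_⟩
  intro k A hk h2 hA hinj g hg hgA G hG hw
  have hw' : ∀ i : Fin k, ∃ w : ℤ, i ∈ G → (∃ x ∈ A i, ∃ y ∈ A i, w ≠ 0 ∧ x - y = g * w) ∧
      (w.natAbs.primeFactors.card : ℝ) ≤ η / 2 * k := by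
    intro i
    by_cases hi : i ∈ G
    · obtain ⟨x, hx, y, hy, w, hw0, hxy, hwc⟩ := hw i hi
      exact ⟨w, fun _ => ⟨⟨x, hx, y, hy, hw0, hxy⟩, hwc⟩⟩
    · exact ⟨0, fun h => absurd h hi⟩
  choose w hw1 using hw'
  have hkr : (1 : ℝ) ≤ k := by exact_mod_cast hk
  have hGp : (0 : ℝ) < G.card := lt_of_lt_of_le (by positivity) hG
  obtain ⟨T, hTd⟩ : ∃ T : Finset ℕ, T = (G.biUnion fun i => (w i).natAbs.primeFactors).filter
      fun p => (G.card : ℝ) / 2 ≤ ((G.filter fun i => p ∈ (w i).natAbs.primeFactors).card : ℝ) :=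
    ⟨_, rfl⟩
  refine h k A hk h2 hA hinj g hg hgA T ?_ ?_
  · -- double counting
    have h1 : (T.card : ℝ) * (G.card / 2) ≤
        ∑ p ∈ T, ((G.filter fun i => p ∈ (w i).natAbs.primeFactors).card : ℝ) := by
      rw [← nsmul_eq_mul]
      refine Finset.card_nsmul_le_sum _ _ _ fun p hp => ?_
      rw [hTd, mem_filter] at hp
      exact hp.2
    have h2 : ∑ p ∈ T, ((G.filter fun i => p ∈ (w i).natAbs.primeFactors).card : ℝ) =
        ∑ i ∈ G, ((T.filter fun p => p ∈ (w i).natAbs.primeFactors).card : ℝ) := by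
      simp only [Finset.card_filter]
      push_cast
      exact Finset.sum_comm
    have h3 : ∑ i ∈ G, ((T.filter fun p => p ∈ (w i).natAbs.primeFactors).card : ℝ) ≤
        ∑ i ∈ G, (η / 2 * k) := by
      refine Finset.sum_le_sum fun i hi => le_trans ?_ (hw1 i hi).2
      have : (T.filter fun p => p ∈ (w i).natAbs.primeFactors).card ≤
          (w i).natAbs.primeFactors.card :=
        card_le_card fun p hp => (mem_filter.1 hp).2
      exact_mod_cast this
    rw [Finset.sum_const, nsmul_eq_mul] at h3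
    have h4 : (T.card : ℝ) * (G.card / 2) ≤ G.card * (η / 2 * k) := (h1.trans h2.le).trans h3
    have h5 : (G.card : ℝ) / 2 * T.card ≤ G.card / 2 * (η * k) := by linarith
    exact le_of_mul_le_mul_left h5 (by linarith)
  · rintro p hp ⟨E, hE, hpE⟩
    have h1 : G \ E ⊆ G.filter fun i => p ∈ (w i).natAbs.primeFactors := by
      intro i hi
      rw [mem_sdiff] at hi
      rw [mem_filter]
      refine ⟨hi.1, ?_⟩
      obtain ⟨⟨x, hx, y, hy, hw0, hxy⟩, -⟩ := hw1 i hi.1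
      have h3 := hpE i hi.2 x hx y hy
      rw [hxy] at h3
      have h4 : ((p : ℕ) : ℤ) ∣ w i := by
        have hg0 : (g : ℤ) ≠ 0 := by exact_mod_cast hg.ne'
        have h5 : (g : ℤ) * p ∣ g * w i := by
          have : ((p * g : ℕ) : ℤ) = (g : ℤ) * p := by push_cast; ring
          rw [← this]; exact h3
        exact (mul_dvd_mul_iff_left hg0).1 h5
      rw [Nat.mem_primeFactors]
      exact ⟨hp, Int.natCast_dvd.1 h4, Int.natAbs_ne_zero.2 hw0⟩
    have h2 : (G.card : ℝ) / 2 ≤ ((G.filter fun i => p ∈ (w i).natAbs.primeFactors).card : ℝ) := by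
      have h3 : G.card ≤ (G \ E).card + E.card := by
        have := Finset.le_card_sdiff E G
        omega
      have h4 := card_le_card h1
      have h5 : (G.card : ℝ) ≤ ((G.filter fun i => p ∈ (w i).natAbs.primeFactors).card : ℝ) +
          E.card := by exact_mod_cast h3.trans (Nat.add_le_add_right h4 _)
      linarith
    rw [hTd, mem_filter]
    refine ⟨?_, h2⟩
    have h3 : 0 < (G.filter fun i => p ∈ (w i).natAbs.primeFactors).card := by
      have h4 : (0 : ℝ) < ((G.filter fun i => p ∈ (w i).natAbs.primeFactors).card : ℝ) := by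
        linarith
      exact_mod_cast h4
    obtain ⟨i, hi⟩ := card_pos.1 h3
    rw [mem_filter] at hi
    exact mem_biUnion.2 ⟨i, hi.1, hi.2⟩

/-- few short summands -/
theorem long0 (b : ℕ) (ε : ℝ) (hε : 0 < ε) (hε1 : ε ≤ 1) :
    ∃ (Λ : ℕ) (η c : ℝ), 0 < η ∧ 0 < c ∧ ∀ (k : ℕ) (A : Fin k → Finset ℤ), 1 ≤ k →
      (∀ i, 2 ≤ (A i).card) → (∀ i, (A i).card ≤ b ∨ IsAP (A i)) →
      Set.InjOn (fun x : Fin k → ℤ => ∑ i, x i) (Fintype.piFinset A : Finset (Fin k → ℤ)) →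
      ((univ.filter fun i => (A i).card ≤ Λ).card : ℝ) ≤ η * Real.log (sums A).card →
      ∀ X : Finset ℂ, X.Nonempty → (0 : ℂ) ∉ X →
      c * ((X.card : ℝ) * (sums A).card) ^ (1 - ε) ≤ (AB X ((sums A).erase 0)).card := by
  classical
  obtain ⟨M, Λ, c₁, hM, hbΛ, hc₁, hdone⟩ := done b (ε / 3) (by positivity) (by linarith)
  have hlog : 0 < Real.log ((Λ : ℝ) + 2) := Real.log_pos (by
    have : (0 : ℝ) ≤ Λ := Nat.cast_nonneg _
    linarith)
  refine ⟨Λ, ε / 3 / Real.log ((Λ : ℝ) + 2), c₁, by positivity, hc₁, ?_⟩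
  intro k A hk h2 hAb hinj hG X hX hX0
  have hcard := sums_card hinj
  obtain ⟨N, hN⟩ : ∃ N : ℕ, N = ∏ i, (A i).card := ⟨_, rfl⟩
  rw [hcard, ← hN] at hG ⊢
  have h2k : 2 ^ k ≤ N := by rw [hN]; exact two_pow_le h2
  have hN2 : 2 ≤ N := by
    calc 2 = 2 ^ 1 := rfl
      _ ≤ 2 ^ k := Nat.pow_le_pow_right (by norm_num) hk
      _ ≤ N := h2k
  have hN1 : (1 : ℝ) < N := by
    have : 1 < N := by omega
    exact_mod_cast this
  have hX1 : (1 : ℝ) ≤ X.card := by exact_mod_cast card_pos.2 hX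
  have hΛ2 : (0 : ℝ) < (Λ : ℝ) + 2 := by
    have : (0 : ℝ) ≤ Λ := Nat.cast_nonneg _
    linarith
  obtain ⟨I, hI⟩ : ∃ I : Finset (Fin k), I = univ.filter fun i => Λ < (A i).card := ⟨_, rfl⟩
  have hIc : univ \ I = univ.filter fun i => (A i).card ≤ Λ := by
    ext i
    rw [hI, mem_sdiff, mem_filter, mem_filter]
    simp
  have hsmall : ∀ i, i ∉ I → (A i).card ≤ Λ := by
    intro i hi
    rw [hI, mem_filter, not_and, not_lt] at hi
    exact hi (mem_univ _)
  have h4 : (N : ℝ) ≤ (∏ i ∈ I, ((A i).card : ℝ)) * (N : ℝ) ^ (ε / 3) := by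
    have h5 := card_out (A := A) (Λ := Λ) (I := I) hsmall
    rw [← hN] at h5
    have h6 : (N : ℝ) ≤ (∏ i ∈ I, ((A i).card : ℝ)) * ((Λ : ℝ) + 2) ^ (univ \ I).card := by
      exact_mod_cast h5
    refine h6.trans (mul_le_mul_of_nonneg_left ?_ (Finset.prod_nonneg fun _ _ =>
      Nat.cast_nonneg _))
    rw [← Real.rpow_natCast, Real.rpow_def_of_pos hΛ2, Real.rpow_def_of_pos (by linarith)]
    apply Real.exp_le_exp.2
    rw [hIc]
    calc Real.log ((Λ : ℝ) + 2) * ((univ.filter fun i => (A i).card ≤ Λ).card : ℝ)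
        ≤ Real.log ((Λ : ℝ) + 2) * (ε / 3 / Real.log ((Λ : ℝ) + 2) * Real.log N) := by gcongr
      _ = Real.log N * (ε / 3) := by field_simp
  have hne : I.Nonempty := by
    by_contra hcon
    rw [not_nonempty_iff_eq_empty] at hcon
    rw [hcon, Finset.prod_empty, one_mul] at h4
    have h5 : (N : ℝ) ^ (ε / 3) < (N : ℝ) ^ (1 : ℝ) :=
      Real.rpow_lt_rpow_of_exponent_lt hN1 (by linarith)
    rw [Real.rpow_one] at h5
    linarith
  have hA' : ∀ i, (A i).Nonempty := fun i => card_pos.1 (by have := h2 i; omega)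
  choose a ha using hA'
  have hall : ∀ p : ℕ, p.Prime → Safe A I a p ∨ Spr A I a M Λ p := by
    intro p hp
    obtain ⟨e, he1, i, hi, he2⟩ := exists_level hne h2 hp
    have haF : a ∈ Fintype.piFinset (Bf A I a) := mem_Bf.2 ⟨fun i _ => ha i, fun i _ => rfl⟩
    by_cases h0 : ((p ^ e : ℕ) : ℤ) ∣ ∑ i, a i
    · right
      refine ⟨e, he1, fun x hx => ?_, {i}, singleton_subset_iff.2 hi, ?_, Or.inr ⟨i,
        mem_singleton_self _, ?_⟩⟩
      · have h5 := sum_sub_dvd he1 hx haF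
        simpa using dvd_add h5 h0
      · intro j hj
        rw [mem_singleton] at hj
        rw [hj]
        exact he2
      · rw [hI, mem_filter] at hi
        exact hi.2
    · left
      refine ⟨e, he1, fun x hx h6 => h0 ?_⟩
      have h5 := sum_sub_dvd he1 hx haF
      have h7 := dvd_sub h6 h5
      simpa using h7
  have h3 := hdone k A I a h2 hAb hinj ha hne hall X hX hX0
  have h5 : (N : ℝ) ^ (1 - ε / 3) ≤ ∏ i ∈ I, ((A i).card : ℝ) := by
    rw [Real.rpow_sub (by linarith), Real.rpow_one, div_le_iff₀ (by positivity)]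
    exact h4
  exact le_trans (mul_le_mul_of_nonneg_left (rpow_large hε hε1 hX1 hN1.le h5) hc₁.le) h3

/-- few short summands -/
theorem long (b : ℕ) (ε : ℝ) (hε : 0 < ε) (hε1 : ε ≤ 1) :
    ∃ (Λ : ℕ) (η c : ℝ), 0 < η ∧ 0 < c ∧ ∀ (k : ℕ) (A : Fin k → Finset ℤ), 1 ≤ k →
      (∀ i, 2 ≤ (A i).card) → (∀ i, (A i).card ≤ b ∨ IsAP (A i)) →
      Set.InjOn (fun x : Fin k → ℤ => ∑ i, x i) (Fintype.piFinset A : Finset (Fin k → ℤ)) →
      ((univ.filter fun i => (A i).card ≤ Λ).card : ℝ) ≤ η * Real.log (sums A).card →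
      Big c ε (sums A) := by
  obtain ⟨Λ, η, c, hη, hc, h⟩ := long0 b (ε / 2) (by linarith) (by linarith)
  refine ⟨Λ, η, c / 2, hη, by linarith, ?_⟩
  intro k A hk h2 hA hinj hG
  exact big_of hc hε hε1 (two_le_sums hk h2 hinj) (h k A hk h2 hA hinj hG)

/-- the generalised arithmetic progression of the `a + ∑ x i * u i` with `0 ≤ x i < L i` -/
def gap {k : ℕ} (a : ℤ) (u : Fin k → ℤ) (L : Fin k → ℕ) : Finset ℤ :=
  (Fintype.piFinset fun i => range (L i)).image fun x => a + ∑ i, (x i : ℤ) * u i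

/-- the elements of the generalised arithmetic progression are distinct -/
def Proper {k : ℕ} (u : Fin k → ℤ) (L : Fin k → ℕ) : Prop :=
  ∀ x y : Fin k → ℕ, (∀ i, x i < L i) → (∀ i, y i < L i) →
    ∑ i, (x i : ℤ) * u i = ∑ i, (y i : ℤ) * u i → x = y

/-- the progressions of which a progression is the sum -/
def prg {k : ℕ} (hk : 0 < k) (a : ℤ) (u : Fin k → ℤ) (L : Fin k → ℕ) (i : Fin k) : Finset ℤ :=
  (range (L i)).image fun t : ℕ => (if i = ⟨0, hk⟩ then a else 0) + (t : ℤ) * u i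

lemma prg_isAP {k : ℕ} (hk : 0 < k) (a : ℤ) (u : Fin k → ℤ) (L : Fin k → ℕ) (i : Fin k) :
    IsAP (prg hk a u L i) := ⟨_, _, _, rfl⟩

lemma Proper.ne_zero {k : ℕ} {u : Fin k → ℤ} {L : Fin k → ℕ} (h : Proper u L)
    (hL : ∀ i, 2 ≤ L i) (i : Fin k) : u i ≠ 0 := by
  classical
  intro hi
  have h1 := h (fun _ => 0) (Pi.single i 1) (fun j => by have := hL j; omega) (fun j => by
    have := hL j
    by_cases hj : j = i
    · subst hj; rw [Pi.single_eq_same]; omega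
    · rw [Pi.single_eq_of_ne hj]; omega) (by
    rw [Finset.sum_eq_zero (by intro j _; simp), Finset.sum_eq_zero]
    intro j _
    by_cases hj : j = i
    · subst hj; rw [hi, mul_zero]
    · rw [Pi.single_eq_of_ne hj]; simp)
  have h2 := congrFun h1 i
  rw [Pi.single_eq_same] at h2
  omega

lemma prg_card {k : ℕ} (hk : 0 < k) (a : ℤ) {u : Fin k → ℤ} {L : Fin k → ℕ} {i : Fin k}
    (hu : u i ≠ 0) : (prg hk a u L i).card = L i := by
  unfold prg
  rw [card_image_of_injective, card_range]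
  intro s t hst
  simp only [add_right_inj] at hst
  have := mul_right_cancel₀ hu hst
  exact_mod_cast this

lemma ite_sum {k : ℕ} (hk : 0 < k) (a : ℤ) :
    ∑ i : Fin k, (if i = ⟨0, hk⟩ then a else 0) = a := by
  rw [Finset.sum_ite_eq' univ (⟨0, hk⟩ : Fin k) (fun _ => a), if_pos (mem_univ _)]

lemma mem_prg {k : ℕ} (hk : 0 < k) (a : ℤ) {u : Fin k → ℤ} {L : Fin k → ℕ} {x : Fin k → ℤ}
    (hx : ∀ i, x i ∈ prg hk a u L i) : ∃ t : Fin k → ℕ, (∀ i, t i < L i) ∧
      (∀ i, x i = (if i = ⟨0, hk⟩ then a else 0) + (t i : ℤ) * u i) ∧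
      ∑ i, x i = a + ∑ i, (t i : ℤ) * u i := by
  have h : ∀ i, ∃ t : ℕ, t < L i ∧ x i = (if i = ⟨0, hk⟩ then a else 0) + (t : ℤ) * u i := by
    intro i
    obtain ⟨t, ht, htx⟩ := mem_image.1 (hx i)
    exact ⟨t, mem_range.1 ht, htx.symm⟩
  choose t ht htx using h
  refine ⟨t, ht, htx, ?_⟩
  calc ∑ i, x i = ∑ i, ((if i = ⟨0, hk⟩ then a else 0) + (t i : ℤ) * u i) :=
        Finset.sum_congr rfl fun i _ => htx i
    _ = _ := by rw [Finset.sum_add_distrib, ite_sum]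

lemma sums_prg {k : ℕ} (hk : 0 < k) (a : ℤ) (u : Fin k → ℤ) (L : Fin k → ℕ) :
    sums (prg hk a u L) = gap a u L := by
  ext z
  constructor
  · intro hz
    obtain ⟨x, hx, rfl⟩ := mem_image.1 hz
    rw [Fintype.mem_piFinset] at hx
    obtain ⟨t, ht, -, hs⟩ := mem_prg hk a hx
    refine mem_image.2 ⟨t, ?_, hs.symm⟩
    rw [Fintype.mem_piFinset]
    exact fun i => mem_range.2 (ht i)
  · intro hz
    obtain ⟨t, ht, rfl⟩ := mem_image.1 hz
    rw [Fintype.mem_piFinset] at ht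
    refine mem_image.2 ⟨fun i => (if i = ⟨0, hk⟩ then a else 0) + (t i : ℤ) * u i, ?_, ?_⟩
    · rw [Fintype.mem_piFinset]
      exact fun i => mem_image.2 ⟨t i, ht i, rfl⟩
    · simp only
      rw [Finset.sum_add_distrib, ite_sum]

lemma prg_inj {k : ℕ} (hk : 0 < k) (a : ℤ) {u : Fin k → ℤ} {L : Fin k → ℕ} (h : Proper u L) :
    Set.InjOn (fun x : Fin k → ℤ => ∑ i, x i)
      (Fintype.piFinset (prg hk a u L) : Finset (Fin k → ℤ)) := by
  intro x hx y hy hxy
  rw [mem_coe, Fintype.mem_piFinset] at hx hy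
  obtain ⟨s, hs, hsx, hsum⟩ := mem_prg hk a hx
  obtain ⟨t, ht, hty, htum⟩ := mem_prg hk a hy
  simp only at hxy
  rw [hsum, htum, add_right_inj] at hxy
  have := h s t hs ht hxy
  funext i
  rw [hsx i, hty i, this]

lemma prg_Dv {k : ℕ} (hk : 0 < k) (a : ℤ) {u : Fin k → ℤ} {L : Fin k → ℕ} {i : Fin k} {n : ℕ}
    (h : (n : ℤ) ∣ u i) : Dv n (prg hk a u L i) := by
  intro x hx y hy
  obtain ⟨s, -, rfl⟩ := mem_image.1 hx
  obtain ⟨t, -, rfl⟩ := mem_image.1 hy
  have : (if i = ⟨0, hk⟩ then a else 0) + (s : ℤ) * u i -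
      ((if i = ⟨0, hk⟩ then a else 0) + (t : ℤ) * u i) = (s - t) * u i := by ring
  rw [this]
  exact h.mul_left _

lemma dvd_of_prg_Dv {k : ℕ} (hk : 0 < k) (a : ℤ) {u : Fin k → ℤ} {L : Fin k → ℕ} {i : Fin k}
    {n : ℕ} (hL : 2 ≤ L i) (h : Dv n (prg hk a u L i)) : (n : ℤ) ∣ u i := by
  have h1 := h _ (mem_image.2 ⟨1, mem_range.2 (by omega), rfl⟩) _
    (mem_image.2 ⟨0, mem_range.2 (by omega), rfl⟩)
  simpa using h1

/-- progressions with pairwise coprime differences -/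
theorem coprime (ε : ℝ) (hε : 0 < ε) (hε1 : ε ≤ 1) :
    ∃ c : ℝ, 0 < c ∧ ∀ (k : ℕ) (a : ℤ) (u : Fin k → ℤ) (L : Fin k → ℕ), 1 ≤ k →
      (∀ i, 2 ≤ L i) → Proper u L → (∀ i j, i ≠ j → IsCoprime (u i) (u j)) →
      Big c ε (gap a u L) := by
  classical
  obtain ⟨η, c, hη, hc, h⟩ := popular 0 ε (1 / 3) hε hε1 (by norm_num)
  refine ⟨c, hc, ?_⟩
  intro k a u L hk hL hp hcop
  have hk0 : 0 < k := hk
  rw [← sums_prg hk0]
  have hu := hp.ne_zero hL
  have hkr : (1 : ℝ) ≤ k := by exact_mod_cast hk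
  have hcard : ∀ i, 2 ≤ (prg hk0 a u L i).card := fun i => by rw [prg_card hk0 a (hu i)]; exact hL i
  rcases hk.eq_or_lt with hk1 | hk1
  · -- one progression
    subst hk1
    have hfin : ∀ i : Fin 1, i = 0 := fun i => Subsingleton.elim _ _
    refine h 1 _ le_rfl hcard (fun i => Or.inr (prg_isAP _ _ _ _ _)) (prg_inj hk0 a hp)
      (u 0).natAbs (Int.natAbs_pos.2 (hu 0)) ?_ ∅ (by simpa using hη.le) ?_
    · intro i
      apply prg_Dv
      rw [hfin i]
      exact Int.natAbs_dvd.2 dvd_rfl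
    · rintro p hpp ⟨E, hE, hpE⟩
      exfalso
      have hE0 : E = ∅ := by
        rw [← card_eq_zero]
        by_contra hne
        have h3 : (1 : ℝ) ≤ E.card := by exact_mod_cast Nat.one_le_iff_ne_zero.2 hne
        push_cast at hE
        linarith
      have h3 := dvd_of_prg_Dv hk0 a (hL 0) (hpE 0 (by rw [hE0]; exact notMem_empty _))
      have h4 : p * (u 0).natAbs ∣ (u 0).natAbs := Int.natCast_dvd.1 h3
      have h5 := Nat.le_of_dvd (Int.natAbs_pos.2 (hu 0)) h4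
      have h6 := Int.natAbs_pos.2 (hu 0)
      have h7 := hpp.two_le
      nlinarith
  · refine h k _ hk hcard (fun i => Or.inr (prg_isAP _ _ _ _ _)) (prg_inj hk0 a hp) 1 one_pos
      (fun i => Dv_one _) ∅ (by simpa using by positivity) ?_
    rintro p hpp ⟨E, hE, hpE⟩
    exfalso
    have h3 : 1 < (univ \ E).card := by
      have h4 : (k : ℝ) ≤ (univ \ E).card + E.card := by
        have := Finset.le_card_sdiff E (univ : Finset (Fin k))
        rw [card_univ, Fintype.card_fin] at this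
        have h5 : k ≤ (univ \ E).card + E.card := by omega
        exact_mod_cast h5
      have h5 : (2 : ℝ) ≤ k := by exact_mod_cast hk1
      have h6 : (1 : ℝ) < (univ \ E).card := by linarith
      exact_mod_cast h6
    obtain ⟨i, hi, j, hj, hij⟩ := one_lt_card.1 h3
    rw [mem_sdiff] at hi hj
    have h4 := dvd_of_prg_Dv hk0 a (hL i) (hpE i hi.2)
    have h5 := dvd_of_prg_Dv hk0 a (hL j) (hpE j hj.2)
    rw [mul_one] at h4 h5
    have h6 := (hcop i j hij).isUnit_of_dvd' h4 h5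
    rw [Int.isUnit_iff] at h6
    have h7 := hpp.two_le
    omega

end Pool.Agent.Helper37HC
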